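import Pool.Agent.W801.AV.Stm

set_option autoImplicit false

namespace Pool.Agent.W801.AV.TFIN
open H974 Finset

theorem pz {Ed ι : Type*} [DecidableEq Ed] {p : Ed → ℝ} (hp : Ok p) (S : Finset Ed) (T : Finset ι)
    (A : ι → Finset Ed → Prop) (B : Finset Ed → Prop) (mu M2 : ℝ) (hmu : 0 < mu) (hM2 : 0 < M2)
    (h1 : mu ≤ ∑ w ∈ T, Pr p S (A w))
    (h2 : ∑ v ∈ T, ∑ w ∈ T, Pr p S (fun F => A v F ∧ A w F) ≤ M2)
    (hB : ∀ F, F ⊆ S → mu / 2 ≤ ∑ w ∈ T, ind (A w F) → B F) :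
    mu ^ 2 / (4 * M2) ≤ Pr p S B := by
  have e1 : Ex p S (fun F => ∑ w ∈ T, ind (A w F)) = ∑ w ∈ T, Pr p S (A w) := by
    rw [Ex_sum]
    rfl
  have e2 : Ex p S (fun F => (∑ w ∈ T, ind (A w F)) ^ 2) =
      ∑ v ∈ T, ∑ w ∈ T, Pr p S (fun F => A v F ∧ A w F) := by
    have e3 : ∀ F, (∑ w ∈ T, ind (A w F)) ^ 2 = ∑ v ∈ T, ∑ w ∈ T, ind (A v F ∧ A w F) := by
      intro F
      rw [sq, Finset.sum_mul_sum]
      refine Finset.sum_congr rfl fun v _ => Finset.sum_congr rfl fun w _ => ?_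
      rw [ind_and]
    simp_rw [e3]
    rw [Ex_sum]
    refine Finset.sum_congr rfl fun v _ => ?_
    rw [Ex_sum]
    rfl
  set t : ℝ := mu / (4 * M2) with ht
  have ht0 : 0 < t := by positivity
  have key : Ex p S (fun F => ∑ w ∈ T, ind (A w F)) ≤
      Ex p S (fun F => (mu / 2 + t * (∑ w ∈ T, ind (A w F)) ^ 2) + 1 / (4 * t) * ind (B F)) := by
    refine Ex_mono hp fun F hF => ?_
    set Y := ∑ w ∈ T, ind (A w F) with hY
    by_cases hb : B F
    · rw [ind_of hb, mul_one]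
      have : t * Y ^ 2 + 1 / (4 * t) - Y = 1 / (4 * t) * (2 * t * Y - 1) ^ 2 := by
        field_simp
        ring
      have h5 : 0 ≤ 1 / (4 * t) * (2 * t * Y - 1) ^ 2 := by positivity
      linarith
    · have h6 : Y < mu / 2 := by
        by_contra h7
        exact hb (hB F hF (not_lt.1 h7))
      have h8 : 0 ≤ t * Y ^ 2 := by positivity
      have h9 : 0 ≤ 1 / (4 * t) * ind (B F) := mul_nonneg (by positivity) (ind_nonneg _)
      linarith
  rw [Ex_add, Ex_add, Ex_mul_left, Ex_mul_left, Ex_const, e1, e2] at key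
  have k2 : mu ≤ mu / 2 + t * M2 + 1 / (4 * t) * Pr p S B := by
    have := mul_le_mul_of_nonneg_left h2 ht0.le
    unfold Pr at *
    linarith
  have k3 : t * M2 = mu / 4 := by
    rw [ht]
    field_simp
  have k4 : mu / 4 ≤ 1 / (4 * t) * Pr p S B := by linarith
  have k5 : 1 / (4 * t) = M2 / mu := by
    rw [ht]
    field_simp
  rw [k5] at k4
  rw [div_le_iff₀ (by positivity)]
  have k6 := mul_le_mul_of_nonneg_left k4 (show (0:ℝ) ≤ 4 * mu by positivity)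
  have k7 : 4 * mu * (M2 / mu * Pr p S B) = Pr p S B * (4 * M2) := by
    field_simp
  nlinarith

theorem sum_ind_le {ι : Type*} (T : Finset ι) (A : ι → Prop) (U : Finset ι)
    (h : ∀ w ∈ T, A w → w ∈ U) : ∑ w ∈ T, ind (A w) ≤ (U.card : ℝ) := by
  classical
  have e : ∑ w ∈ T, ind (A w) = ((T.filter A).card : ℝ) := by
    rw [Finset.card_filter]
    push_cast
    refine Finset.sum_congr rfl fun w _ => ?_
    by_cases hw : A w
    · rw [ind_of hw, if_pos hw]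
    · rw [ind_not_of hw, if_neg hw]
  rw [e]
  have : T.filter A ⊆ U := fun w hw => h w (Finset.mem_filter.1 hw).1 (Finset.mem_filter.1 hw).2
  exact_mod_cast Finset.card_le_card this

end Pool.Agent.W801.AV.TFIN

namespace Pool.Agent.W801.AV
open H974 H12S Finset H389NS H984P H984N H342P
open Pool.Agent.W424.OD

theorem t_FIN : S_FIR → S_SEC → S_LRG → S_FIN := by
  rintro ⟨c, n0, hc, hfir⟩ ⟨C, hC, hsec⟩ hlrg
  refine ⟨c / 2, c ^ 2 / (4 * C), max n0 16, by positivity, by positivity, ?_⟩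
  intro n hn
  have hn0 : n0 ≤ n := (le_max_left _ _).trans hn
  have hn16 : 16 ≤ n := (le_max_right _ _).trans hn
  have hnp : (0 : ℝ) < (n : ℝ) := by
    have : (16 : ℝ) ≤ (n : ℝ) := by exact_mod_cast hn16
    linarith
  have hN : (0 : ℝ) < (n : ℝ) ^ (4 / 3 : ℝ) := Real.rpow_pos_of_pos hnp _
  have hp : Ok (fun _ : Edg => (1 / 2 : ℝ)) := fun _ => ⟨by norm_num, by norm_num⟩
  rw [Plain.prob_eq]
  have h := TFIN.pz hp (RE 0 n 0 n) (Ctr n)
    (fun w F => E n w F ∧ Sml n (Plain.cluster F w) F)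
    (fun F => ∀ v, Plain.Largest n F v →
      c / 2 * (n : ℝ) ^ (4 / 3 : ℝ) ≤ ((accessible n F v).card : ℝ))
    (c * (n : ℝ) ^ (4 / 3 : ℝ)) (C * ((n : ℝ) ^ (4 / 3 : ℝ)) ^ 2) (by positivity) (by positivity)
    (hfir n hn0) ?_ ?_
  · have e : (c * (n : ℝ) ^ (4 / 3 : ℝ)) ^ 2 / (4 * (C * ((n : ℝ) ^ (4 / 3 : ℝ)) ^ 2)) =
        c ^ 2 / (4 * C) := by
      field_simp
    rw [e] at h
    exact h
  · refine le_trans ?_ (hsec n hn16)
    refine Finset.sum_le_sum fun v _ => Finset.sum_le_sum fun w _ => ?_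
    exact Pr_mono hp fun F _ hF => ⟨hF.1.1, hF.2.1⟩
  · intro F hF hY v hv
    refine le_trans ?_ (hY.trans (TFIN.sum_ind_le (Ctr n)
      (fun w => E n w F ∧ Sml n (Plain.cluster F w) F) (accessible n F v) ?_))
    · linarith
    · intro w hw hA
      exact (hlrg n w F hn16 hw hF hA.1 hA.2 v hv).2

end Pool.Agent.W801.AV
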