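import Pool.Agent.W801.AV.Stm2
import Pool.Agent.W801.AV.T_FIN

set_option autoImplicit false

namespace Pool.Agent.W801.AV.TBOX
open H974 Finset

theorem cs {α β : Type*} [DecidableEq α] [DecidableEq β] (A : Finset α) (g : α → β) :
    (A.card : ℝ) ^ 2 ≤ ((A.image g).card : ℝ) *
      ∑ v ∈ A, ((A.filter (fun w => g w = g v)).card : ℝ) := by
  have h1 : (A.card : ℝ) = ∑ b ∈ A.image g, ((A.filter (fun w => g w = b)).card : ℝ) := by
    rw [Finset.card_eq_sum_card_image g A]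
    push_cast
    rfl
  have h2 : ∑ v ∈ A, ((A.filter (fun w => g w = g v)).card : ℝ) =
      ∑ b ∈ A.image g, ((A.filter (fun w => g w = b)).card : ℝ) ^ 2 := by
    rw [Finset.sum_comp (fun b => ((A.filter (fun w => g w = b)).card : ℝ)) g]
    refine Finset.sum_congr rfl fun b _ => ?_
    rw [nsmul_eq_mul, sq]
  rw [h2]
  nth_rewrite 1 [h1]
  exact sq_sum_le_card_mul_sum_sq

theorem markov {Ed : Type*} [DecidableEq Ed] {p : Ed → ℝ} (hp : Ok p) (S : Finset Ed)
    (Z : Finset Ed → ℝ) (hZ : ∀ F, 0 ≤ Z F) {M l : ℝ} (hl : 0 < l) (hM : Ex p S Z ≤ M) :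
    Pr p S (fun F => ¬ Z F ≤ l) ≤ M / l := by
  rw [le_div_iff₀ hl]
  refine le_trans ?_ hM
  unfold Pr
  rw [← Ex_mul_right]
  refine Ex_mono hp fun F _ => ?_
  by_cases h : Z F ≤ l
  · rw [ind_not_of (by simpa using h), zero_mul]
    exact hZ F
  · rw [ind_of h, one_mul]
    exact (not_le.1 h).le

theorem near {a b : ℤ} {m : ℕ} (hm : 1 ≤ m) (h : a / (m : ℤ) = b / (m : ℤ)) : |a - b| < m := by
  have hm' : (0 : ℤ) < m := by exact_mod_cast hm
  have h1 := Int.mul_ediv_add_emod a m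
  have h2 := Int.mul_ediv_add_emod b m
  have h3 := Int.emod_nonneg a hm'.ne'
  have h4 := Int.emod_nonneg b hm'.ne'
  have h5 := Int.emod_lt_of_pos a hm'
  have h6 := Int.emod_lt_of_pos b hm'
  rw [abs_lt]
  rw [h] at h1
  constructor <;> linarith

end Pool.Agent.W801.AV.TBOX

namespace Pool.Agent.W801.AV
open H974 H12S Finset H389NS H984P H984N H342P
open Pool.Agent.W424.OD

theorem t_BOX : S_FIR → S_SEC → S_LOC → S_LRG → S_BOX := by
  classical
  rintro ⟨c, n0, hc, hfir⟩ ⟨C, hC, hsec⟩ ⟨C2, hC2, hloc⟩ hlrg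
  set p0 : ℝ := c ^ 2 / (4 * C) with hp0
  have hp0p : 0 < p0 := by positivity
  refine ⟨c ^ 2 * p0 / (8 * C2), p0 / 2, max n0 16, by positivity, by positivity, ?_⟩
  intro n hn m hm1 hmn
  have hn0 : n0 ≤ n := (le_max_left _ _).trans hn
  have hn16 : 16 ≤ n := (le_max_right _ _).trans hn
  have hnp : (0 : ℝ) < (n : ℝ) := by
    have : (16 : ℝ) ≤ (n : ℝ) := by exact_mod_cast hn16
    linarith
  have hmp : (0 : ℝ) < (m : ℝ) := by exact_mod_cast hm1
  have hN : (0 : ℝ) < (n : ℝ) ^ (4 / 3 : ℝ) := Real.rpow_pos_of_pos hnp _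
  have hMm : (0 : ℝ) < (m : ℝ) ^ (4 / 3 : ℝ) := Real.rpow_pos_of_pos hmp _
  have hp : Ok (fun _ : Edg => (1 / 2 : ℝ)) := fun _ => ⟨by norm_num, by norm_num⟩
  rw [Plain.prob_eq]
  set S := RE (0:ℤ) n 0 n with hS
  set A : ℤ × ℤ → Finset Edg → Prop := fun w F => E n w F ∧ Sml n (Plain.cluster F w) F with hA
  set M := (n : ℝ) ^ (4 / 3 : ℝ) with hMdef
  set K := (m : ℝ) ^ (4 / 3 : ℝ) with hKdef
  have h := TFIN.pz hp S (Ctr n) A (fun F => c * M / 2 ≤ ∑ w ∈ Ctr n, ind (A w F))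
    (c * M) (C * M ^ 2) (by positivity) (by positivity) (hfir n hn0) (by
      refine le_trans ?_ (hsec n hn16)
      refine Finset.sum_le_sum fun v _ => Finset.sum_le_sum fun w _ => ?_
      exact Pr_mono hp fun F _ hF => ⟨hF.1.1, hF.2.1⟩) (fun F _ hF => hF)
  have e : (c * M) ^ 2 / (4 * (C * M ^ 2)) = p0 := by
    rw [hp0]
    field_simp
  rw [e] at h
  set Z : Finset Edg → ℝ := fun F => ∑ v ∈ Ctr n,
    ∑ w ∈ (Ctr n).filter (fun w => |v.1 - w.1| < m ∧ |v.2 - w.2| < m), ind (E n v F ∧ E n w F)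
    with hZ
  have hEZ : Ex (fun _ => (1/2:ℝ)) S Z ≤ C2 * (M * K) := by
    refine le_trans (le_of_eq ?_) (hloc n m hn16 hm1 hmn)
    rw [hZ, Ex_sum]
    refine Finset.sum_congr rfl fun v _ => ?_
    rw [Ex_sum]
    rfl
  have hZ0 : ∀ F, 0 ≤ Z F := fun F => Finset.sum_nonneg fun v _ => Finset.sum_nonneg fun w _ =>
    ind_nonneg _
  set l : ℝ := 2 * C2 * (M * K) / p0 with hl
  have hlp : 0 < l := by positivity
  have hmk := TBOX.markov hp S Z hZ0 hlp hEZ
  have e2 : C2 * (M * K) / l = p0 / 2 := by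
    rw [hl]
    field_simp
  rw [e2] at hmk
  have hor := Pr_or_le hp S (fun F => c * M / 2 ≤ ∑ w ∈ Ctr n, ind (A w F) ∧ Z F ≤ l)
    (fun F => ¬ Z F ≤ l)
  have hle : Pr (fun _ => (1/2:ℝ)) S (fun F => c * M / 2 ≤ ∑ w ∈ Ctr n, ind (A w F)) ≤
      Pr (fun _ => (1/2:ℝ)) S (fun F => (c * M / 2 ≤ ∑ w ∈ Ctr n, ind (A w F) ∧ Z F ≤ l) ∨
        ¬ Z F ≤ l) := by
    refine Pr_mono hp fun F _ hF => ?_
    by_cases hz : Z F ≤ l
    · exact Or.inl ⟨hF, hz⟩
    · exact Or.inr hz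
  have hfin : p0 / 2 ≤ Pr (fun _ => (1/2:ℝ)) S
      (fun F => c * M / 2 ≤ ∑ w ∈ Ctr n, ind (A w F) ∧ Z F ≤ l) := by linarith
  refine hfin.trans (Pr_mono hp ?_)
  rintro F hF ⟨hY, hZl⟩ v hv
  set A' := (Ctr n).filter (fun w => A w F) with hA'
  have hAU : A' ⊆ accessible n F v := fun w hw =>
    (hlrg n w F hn16 (Finset.mem_filter.1 hw).1 hF (Finset.mem_filter.1 hw).2.1
      (Finset.mem_filter.1 hw).2.2 v hv).2
  have hcard : c * M / 2 ≤ (A'.card : ℝ) := by
    refine hY.trans (TFIN.sum_ind_le (Ctr n) (fun w => A w F) A' ?_)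
    intro w hw hAw
    exact Finset.mem_filter.2 ⟨hw, hAw⟩
  set g : ℤ × ℤ → ℤ × ℤ := fun w => (w.1 / (m : ℤ), w.2 / (m : ℤ)) with hg
  have hcs := TBOX.cs A' g
  have hZA : ∑ v ∈ A', ((A'.filter (fun w => g w = g v)).card : ℝ) ≤ Z F := by
    rw [hZ]
    calc ∑ v ∈ A', ((A'.filter (fun w => g w = g v)).card : ℝ)
        ≤ ∑ v ∈ A', ∑ w ∈ (Ctr n).filter (fun w => |v.1 - w.1| < m ∧ |v.2 - w.2| < m),
            ind (E n v F ∧ E n w F) := by
          refine Finset.sum_le_sum fun v hv => ?_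
          have hsub : A'.filter (fun w => g w = g v) ⊆
              ((Ctr n).filter (fun w => |v.1 - w.1| < m ∧ |v.2 - w.2| < m)).filter
                (fun w => E n v F ∧ E n w F) := by
            intro w hw
            rw [Finset.mem_filter] at hw
            obtain ⟨hw1, hw2⟩ := hw
            rw [hA', Finset.mem_filter] at hw1 hv
            rw [hg] at hw2
            simp only [Prod.mk.injEq] at hw2
            rw [Finset.mem_filter, Finset.mem_filter]
            exact ⟨⟨hw1.1, TBOX.near hm1 hw2.1.symm, TBOX.near hm1 hw2.2.symm⟩, hv.2.1, hw1.2.1⟩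
          have h3 : ((A'.filter (fun w => g w = g v)).card : ℝ) ≤
              ((((Ctr n).filter (fun w => |v.1 - w.1| < m ∧ |v.2 - w.2| < m)).filter
                (fun w => E n v F ∧ E n w F)).card : ℝ) := by
            exact_mod_cast Finset.card_le_card hsub
          refine h3.trans (le_of_eq ?_)
          rw [Finset.card_filter]
          push_cast
          refine Finset.sum_congr rfl fun w _ => ?_
          by_cases hw : E n v F ∧ E n w F
          · rw [ind_of hw, if_pos hw]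
          · rw [ind_not_of hw, if_neg hw]
      _ ≤ _ := by
          refine Finset.sum_le_sum_of_subset_of_nonneg (Finset.filter_subset _ _) ?_
          intro v _ _
          exact Finset.sum_nonneg fun w _ => ind_nonneg _
  have himg : ((A'.image g).card : ℝ) ≤ (((accessible n F v).image g).card : ℝ) := by
    exact_mod_cast Finset.card_le_card (Finset.image_subset_image hAU)
  have h5 : (c * M / 2) ^ 2 ≤ (((accessible n F v).image g).card : ℝ) * l := by
    calc (c * M / 2) ^ 2 ≤ (A'.card : ℝ) ^ 2 := by gcongr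
      _ ≤ ((A'.image g).card : ℝ) * ∑ v ∈ A', ((A'.filter (fun w => g w = g v)).card : ℝ) := hcs
      _ ≤ (((accessible n F v).image g).card : ℝ) * l := by
          apply mul_le_mul himg (hZA.trans hZl)
          · exact Finset.sum_nonneg fun v _ => Nat.cast_nonneg _
          · exact Nat.cast_nonneg _
  have h6 : c ^ 2 * p0 / (8 * C2) * ((n : ℝ) / m) ^ (4 / 3 : ℝ) = (c * M / 2) ^ 2 / l := by
    rw [Real.div_rpow hnp.le hmp.le, ← hMdef, ← hKdef, hl]
    field_simp
    ring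
  rw [h6, div_le_iff₀ hlp]
  exact h5

end Pool.Agent.W801.AV
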