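import Pool.Agent.W801.AV.Stm2

/-!
Part LOC of project AV: the local second moment.
-/

set_option autoImplicit false

namespace Pool.Agent.W801.AV
open H974 H12S Finset H389NS H984P H984N H342P
open Pool.Agent.W424.OD

namespace TLOC

/-- the sup-distance -/
def rr (v w : ℤ × ℤ) : ℕ := max (v.1 - w.1).natAbs (v.2 - w.2).natAbs

theorem rr_cast (v w : ℤ × ℤ) : ((rr v w : ℕ) : ℤ) = max |v.1 - w.1| |v.2 - w.2| := by
  unfold rr
  rw [Nat.cast_max, Int.natCast_natAbs, Int.natCast_natAbs]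

theorem side_card (T : Finset (ℤ × ℤ)) (v : ℤ × ℤ) (r : ℕ) (hr : 1 ≤ r) :
    (T.filter (fun w => rr v w = r)).card ≤ 12 * r := by
  have hsub : T.filter (fun w => rr v w = r) ⊆
      (({v.1 - r, v.1 + r} : Finset ℤ) ×ˢ Finset.Icc (v.2 - r) (v.2 + r)) ∪
      (Finset.Icc (v.1 - r) (v.1 + r) ×ˢ ({v.2 - r, v.2 + r} : Finset ℤ)) := by
    intro w hw
    rw [Finset.mem_filter] at hw
    have h := hw.2
    unfold rr at h
    simp only [Finset.mem_union, Finset.mem_product, Finset.mem_insert, Finset.mem_singleton,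
      Finset.mem_Icc]
    omega
  have h1 := Finset.card_le_card hsub
  have h2 := Finset.card_union_le (({v.1 - r, v.1 + r} : Finset ℤ) ×ˢ
    Finset.Icc (v.2 - r) (v.2 + r)) (Finset.Icc (v.1 - r) (v.1 + r) ×ˢ
      ({v.2 - r, v.2 + r} : Finset ℤ))
  rw [Finset.card_product, Finset.card_product, Int.card_Icc, Int.card_Icc] at h2
  have h3 : ({v.1 - r, v.1 + r} : Finset ℤ).card ≤ 2 := Finset.card_le_two
  have h4 : ({v.2 - r, v.2 + r} : Finset ℤ).card ≤ 2 := Finset.card_le_two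
  have h5 : (v.2 + r + 1 - (v.2 - r)).toNat = 2 * r + 1 := by omega
  have h6 : (v.1 + r + 1 - (v.1 - r)).toNat = 2 * r + 1 := by omega
  rw [h5, h6] at h2
  have h7 := Nat.mul_le_mul_right (2 * r + 1) h3
  have h8 := Nat.mul_le_mul_left (2 * r + 1) h4
  omega

end TLOC

open TLOC in
theorem t_LOC : S_ONU → S_TWO → S_LOC := by
  rintro ⟨C1, hC1, H1⟩ ⟨C, hC, H⟩
  refine ⟨4 * C1 + 48 * C, by positivity, ?_⟩
  intro n m hn hm hmn
  have hn1 : (1 : ℝ) ≤ n := by exact_mod_cast (by omega : 1 ≤ n)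
  have hn0 : (0 : ℝ) < n := by linarith
  have hm1 : (1 : ℝ) ≤ m := by exact_mod_cast hm
  have hm0 : (0 : ℝ) < m := by linarith
  obtain ⟨L, hLdef⟩ : ∃ L : ℝ, L = (n : ℝ) ^ (1 / 3 : ℝ) := ⟨_, rfl⟩
  obtain ⟨Q, hQdef⟩ : ∃ Q : ℝ, Q = (m : ℝ) ^ (1 / 3 : ℝ) := ⟨_, rfl⟩
  have hL1 : 1 ≤ L := by rw [hLdef]; exact Real.one_le_rpow hn1 (by norm_num)
  have hL0 : 0 < L := by linarith
  have hQ1 : 1 ≤ Q := by rw [hQdef]; exact Real.one_le_rpow hm1 (by norm_num)
  have hQ0 : 0 < Q := by linarith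
  have hL3 : L ^ 3 = n := by
    rw [hLdef, ← Real.rpow_natCast, ← Real.rpow_mul hn0.le]; norm_num
  have hQ3 : Q ^ 3 = m := by
    rw [hQdef, ← Real.rpow_natCast, ← Real.rpow_mul hm0.le]; norm_num
  have h43 : (n : ℝ) ^ (4 / 3 : ℝ) = L ^ 4 := by
    rw [hLdef, ← Real.rpow_natCast, ← Real.rpow_mul hn0.le]; norm_num
  have h43m : (m : ℝ) ^ (4 / 3 : ℝ) = Q ^ 4 := by
    rw [hQdef, ← Real.rpow_natCast, ← Real.rpow_mul hm0.le]; norm_num
  have hm23 : (n : ℝ) ^ (-(2 / 3 : ℝ)) = (L ^ 2)⁻¹ := by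
    rw [Real.rpow_neg hn0.le, hLdef, ← Real.rpow_natCast ((n : ℝ) ^ (1 / 3 : ℝ)) 2,
      ← Real.rpow_mul hn0.le]
    norm_num
  have row : ∀ v ∈ Ctr n,
      ∑ w ∈ (Ctr n).filter (fun w => |v.1 - w.1| < m ∧ |v.2 - w.2| < m),
      Pr (fun _ => (1 / 2 : ℝ)) (RE 0 n 0 n) (fun F => E n v F ∧ E n w F) ≤
        C1 * (L ^ 2)⁻¹ + 12 * C * Q ^ 4 * (L ^ 2)⁻¹ := by
    intro v hv
    obtain ⟨T, hT⟩ : ∃ T : Finset (ℤ × ℤ),
      T = (Ctr n).filter (fun w => |v.1 - w.1| < m ∧ |v.2 - w.2| < m) := ⟨_, rfl⟩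
    have hvT : v ∈ T := by
      rw [hT, Finset.mem_filter]
      refine ⟨hv, ?_, ?_⟩
      · rw [sub_self, abs_zero]; exact_mod_cast hm
      · rw [sub_self, abs_zero]; exact_mod_cast hm
    have hTm : ∀ w ∈ T, w ∈ Ctr n ∧ |v.1 - w.1| < m ∧ |v.2 - w.2| < m := by
      intro w hw
      rw [hT, Finset.mem_filter] at hw
      exact hw
    rw [← hT, ← Finset.add_sum_erase _ _ hvT]
    apply add_le_add
    · rw [← hm23]
      refine le_trans ?_ (H1 n v hn hv)
      exact Pr_mono (fun _ => by norm_num) (fun F _ h => h.1)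
    · calc ∑ w ∈ T.erase v,
            Pr (fun _ => (1 / 2 : ℝ)) (RE 0 n 0 n) (fun F => E n v F ∧ E n w F)
          ≤ ∑ w ∈ T.erase v, C * (rr v w : ℝ) ^ (-(2 / 3 : ℝ)) *
            (n : ℝ) ^ (-(2 / 3 : ℝ)) := by
            apply Finset.sum_le_sum
            intro w hw
            rw [Finset.mem_erase] at hw
            apply H n (rr v w) v w hn hv (hTm w hw.2).1
            · by_contra hcon
              apply hw.1
              unfold rr at hcon
              apply Prod.ext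
              · omega
              · omega
            · exact rr_cast v w
        _ = ∑ r ∈ Finset.Icc 1 m, ∑ w ∈ (T.erase v).filter (fun w => rr v w = r),
              C * (rr v w : ℝ) ^ (-(2 / 3 : ℝ)) * (n : ℝ) ^ (-(2 / 3 : ℝ)) := by
            symm
            apply Finset.sum_fiberwise_of_maps_to
            intro w hw
            rw [Finset.mem_erase] at hw
            have hb := (hTm w hw.2).2
            rw [Finset.mem_Icc]
            constructor
            · by_contra hcon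
              apply hw.1
              unfold rr at hcon
              apply Prod.ext
              · omega
              · omega
            · have h1 := abs_lt.1 hb.1
              have h2 := abs_lt.1 hb.2
              unfold rr
              omega
        _ ≤ ∑ r ∈ Finset.Icc 1 m, 12 * C * Q * (L ^ 2)⁻¹ := by
            apply Finset.sum_le_sum
            intro r hr
            rw [Finset.mem_Icc] at hr
            have e1 : ∑ w ∈ (T.erase v).filter (fun w => rr v w = r),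
                C * (rr v w : ℝ) ^ (-(2 / 3 : ℝ)) * (n : ℝ) ^ (-(2 / 3 : ℝ)) =
                (((T.erase v).filter (fun w => rr v w = r)).card : ℝ) *
                  (C * (r : ℝ) ^ (-(2 / 3 : ℝ)) * (L ^ 2)⁻¹) := by
              rw [← nsmul_eq_mul, ← Finset.sum_const]
              apply Finset.sum_congr rfl
              intro w hw
              rw [(Finset.mem_filter.1 hw).2, hm23]
            rw [e1]
            have hr1 : (1 : ℝ) ≤ r := by exact_mod_cast hr.1
            have hr0 : (0 : ℝ) < r := by linarith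
            have hcard : (((T.erase v).filter (fun w => rr v w = r)).card : ℝ) ≤
                12 * r := by
              exact_mod_cast side_card (T.erase v) v r hr.1
            have hrp : (r : ℝ) * (r : ℝ) ^ (-(2 / 3 : ℝ)) ≤ Q := by
              have e2 : (r : ℝ) * (r : ℝ) ^ (-(2 / 3 : ℝ)) = (r : ℝ) ^ (1 / 3 : ℝ) := by
                nth_rewrite 1 [← Real.rpow_one (r : ℝ)]
                rw [← Real.rpow_add hr0]
                norm_num
              rw [e2, hQdef]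
              apply Real.rpow_le_rpow hr0.le _ (by norm_num)
              exact_mod_cast hr.2
            have hX : 0 ≤ C * (r : ℝ) ^ (-(2 / 3 : ℝ)) * (L ^ 2)⁻¹ := by positivity
            have hY : 0 ≤ 12 * C * (L ^ 2)⁻¹ := by positivity
            calc (((T.erase v).filter (fun w => rr v w = r)).card : ℝ) *
                  (C * (r : ℝ) ^ (-(2 / 3 : ℝ)) * (L ^ 2)⁻¹)
                ≤ (12 * r) * (C * (r : ℝ) ^ (-(2 / 3 : ℝ)) * (L ^ 2)⁻¹) :=
                  mul_le_mul_of_nonneg_right hcard hX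
              _ = (12 * C * (L ^ 2)⁻¹) * ((r : ℝ) * (r : ℝ) ^ (-(2 / 3 : ℝ))) := by ring
              _ ≤ (12 * C * (L ^ 2)⁻¹) * Q := mul_le_mul_of_nonneg_left hrp hY
              _ = 12 * C * Q * (L ^ 2)⁻¹ := by ring
        _ = 12 * C * Q ^ 4 * (L ^ 2)⁻¹ := by
            rw [Finset.sum_const, Nat.card_Icc, nsmul_eq_mul, Nat.add_sub_cancel, ← hQ3]
            ring
  have hcardC : ((Ctr n).card : ℝ) ≤ 4 * L ^ 6 := by
    have h1 : (Ctr n).card ≤ (n + 1) * (n + 1) := by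
      have h2 : (Ctr n).card ≤ (Plain.box n).card := by
        unfold Ctr
        exact Finset.card_filter_le _ _
      have h3 : (Plain.box n).card = (n + 1) * (n + 1) := by
        unfold Plain.box
        rw [Finset.card_product, Int.card_Icc]
        have : ((n : ℤ) + 1 - 0).toNat = n + 1 := by omega
        rw [this]
      rw [h3] at h2
      exact h2
    have h4 : ((Ctr n).card : ℝ) ≤ ((n : ℝ) + 1) * ((n : ℝ) + 1) := by exact_mod_cast h1
    have h5 : L ^ 6 = (n : ℝ) ^ 2 := by rw [← hL3]; ring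
    rw [h5]
    nlinarith
  have hQ4 : 1 ≤ Q ^ 4 := one_le_pow₀ hQ1
  have hLi : 0 < (L ^ 2)⁻¹ := by positivity
  calc ∑ v ∈ Ctr n, ∑ w ∈ (Ctr n).filter (fun w => |v.1 - w.1| < m ∧ |v.2 - w.2| < m),
        Pr (fun _ => (1 / 2 : ℝ)) (RE 0 n 0 n) (fun F => E n v F ∧ E n w F)
      ≤ ∑ v ∈ Ctr n, (C1 * (L ^ 2)⁻¹ + 12 * C * Q ^ 4 * (L ^ 2)⁻¹) := Finset.sum_le_sum row
    _ = ((Ctr n).card : ℝ) * (C1 * (L ^ 2)⁻¹ + 12 * C * Q ^ 4 * (L ^ 2)⁻¹) := by
        rw [Finset.sum_const, nsmul_eq_mul]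
    _ ≤ (4 * L ^ 6) * (C1 * (L ^ 2)⁻¹ + 12 * C * Q ^ 4 * (L ^ 2)⁻¹) :=
        mul_le_mul_of_nonneg_right hcardC (by positivity)
    _ ≤ (4 * L ^ 6) * (C1 * Q ^ 4 * (L ^ 2)⁻¹ + 12 * C * Q ^ 4 * (L ^ 2)⁻¹) := by
        apply mul_le_mul_of_nonneg_left _ (by positivity)
        have : C1 * (L ^ 2)⁻¹ ≤ C1 * Q ^ 4 * (L ^ 2)⁻¹ := by
          apply mul_le_mul_of_nonneg_right _ hLi.le
          nlinarith
        linarith
    _ = (4 * C1 + 48 * C) * ((n : ℝ) ^ (4 / 3 : ℝ) * (m : ℝ) ^ (4 / 3 : ℝ)) := by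
        rw [h43, h43m]
        field_simp
        ring

end Pool.Agent.W801.AV

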