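import Pool.Agent.W801.AV.Stm

/-! Project AV: two-point upper bound (written by helper797). -/

set_option autoImplicit false

namespace Pool.Agent.W801.AV
open H974 H12S Finset H389NS H984P H984N H342P
open Pool.Agent.W424.OD

namespace TTWO

theorem loc {c : ℤ × ℤ} {d k : ℕ} {G G' : Set Edg} (h : G ∩ AE c d k = G' ∩ AE c d k) :
    A3v c d k G ↔ A3v c d k G' := by
  have h1 : ∀ u, Cl c d k G u = Cl c d k G' u := by
    intro u
    unfold Pool.Agent.W424.OD.Cl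
    rw [h]
  unfold A3v
  simp only [h1]

theorem locF {c : ℤ × ℤ} {d k : ℕ} {T : Finset Edg} (hT : blk c k \ blk c d ⊆ T)
    (F : Finset Edg) :
    A3v c d k (↑F : Set Edg) ↔ A3v c d k (↑(F ∩ T) : Set Edg) := by
  apply loc
  unfold AE
  rw [Finset.coe_inter, Set.inter_assoc]
  congr 1
  symm
  exact Set.inter_eq_right.2 (Finset.coe_subset.2 hT)

theorem E_A3v {n : ℕ} {v : ℤ × ℤ} {F : Finset Edg} (h : E n v F) {a k : ℕ} (ha : 1 ≤ a)
    (hak : a ≤ k) (h1 : (k : ℤ) < v.1) (h2 : v.1 + k < n) (h3 : (k : ℤ) < v.2)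
    (h4 : v.2 + k < n) : A3v v a k (↑F : Set Edg) := by
  obtain ⟨⟨hwc, e, p, q, he, hp, hq, hpq⟩, z, hz, hzb⟩ := h
  have hvv : BX v a v := by
    unfold BX inR
    omega
  have hpw : BX v a p := by
    obtain ⟨x, y, t⟩ := e
    obtain ⟨w1, w2⟩ := v
    obtain ⟨p1, p2⟩ := p
    unfold BX inR
    unfold Plain.fst Plain.snd at he
    cases t
    · simp only [Bool.false_eq_true, if_false, Prod.mk.injEq] at he
      omega
    · simp only [if_true, Prod.mk.injEq] at he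
      omega
  refine A3v_of (v := v) (x := v) (x' := z) (w := p) (w' := q) hak hvv (Reach.refl _ _) ?_
    ((Plain.mem_cluster _ _ _).1 hz) hpw ?_ (avoid_reach hpq)
  · unfold BX inR
    omega
  · intro hqb
    apply hq
    unfold Plain.box
    rw [Finset.mem_product, Finset.mem_Icc, Finset.mem_Icc]
    unfold BX inR at hqb
    omega

theorem ctr_bd {n : ℕ} {v : ℤ × ℤ} (hv : v ∈ Ctr n) : 7 * (n : ℤ) ≤ 16 * v.1 ∧
    16 * v.1 ≤ 9 * n ∧ 7 * (n : ℤ) ≤ 16 * v.2 ∧ 16 * v.2 ≤ 9 * n := by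
  unfold Ctr at hv
  rw [Finset.mem_filter] at hv
  obtain ⟨-, h1, h2⟩ := hv
  have a1 := le_abs_self (2 * v.1 - (n : ℤ))
  have a2 := neg_abs_le (2 * v.1 - (n : ℤ))
  have a3 := le_abs_self (2 * v.2 - (n : ℤ))
  have a4 := neg_abs_le (2 * v.2 - (n : ℤ))
  refine ⟨by linarith, by linarith, by linarith, by linarith⟩

theorem sup_bd {r : ℕ} {v w : ℤ × ℤ} (h : (r : ℤ) = max |v.1 - w.1| |v.2 - w.2|) :
    (-(r : ℤ) ≤ v.1 - w.1 ∧ v.1 - w.1 ≤ r ∧ -(r : ℤ) ≤ v.2 - w.2 ∧ v.2 - w.2 ≤ r) ∧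
    (v.1 - w.1 = r ∨ v.1 - w.1 = -r ∨ v.2 - w.2 = r ∨ v.2 - w.2 = -r) := by
  have h1 : |v.1 - w.1| ≤ (r : ℤ) := by rw [h]; exact le_max_left _ _
  have h2 : |v.2 - w.2| ≤ (r : ℤ) := by rw [h]; exact le_max_right _ _
  have b1 := abs_le.1 h1
  have b2 := abs_le.1 h2
  refine ⟨⟨b1.1, b1.2, b2.1, b2.2⟩, ?_⟩
  rcases max_choice |v.1 - w.1| |v.2 - w.2| with h3 | h3
  · rw [h3] at h
    rcases abs_choice (v.1 - w.1) with h4 | h4
    · rw [h4] at h; left; exact h.symm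
    · rw [h4] at h; right; left; linarith
  · rw [h3] at h
    rcases abs_choice (v.2 - w.2) with h4 | h4
    · rw [h4] at h; right; right; left; exact h.symm
    · rw [h4] at h; right; right; right; linarith

theorem blk_box {n : ℕ} {c : ℤ × ℤ} {k : ℕ} (h1 : (k : ℤ) ≤ c.1) (h2 : c.1 + k ≤ n)
    (h3 : (k : ℤ) ≤ c.2) (h4 : c.2 + k ≤ n) : blk c k ⊆ RE 0 n 0 n := by
  unfold blk
  apply RE_subset <;> omega

theorem disj_blk {v w : ℤ × ℤ} {k r : ℕ} (hk : 2 * k < r)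
    (h : v.1 - w.1 = r ∨ v.1 - w.1 = -r ∨ v.2 - w.2 = r ∨ v.2 - w.2 = -r) :
    Disjoint (blk v k) (blk w k) := by
  rw [Finset.disjoint_left]
  intro e h1 h2
  have e1 := (H731C.RE_ends h1).1
  have e2 := (H731C.RE_ends h2).1
  unfold inR at e1 e2
  omega

/-- numerical form -/
theorem num {r n x : ℝ} (hr : 0 < r) (hn : 0 < n) (hx0 : 0 ≤ x) (hx : x ≤ 500 / (r * n)) :
    x ^ (2 / 3 : ℝ) ≤ 500 * r ^ (-(2 / 3 : ℝ)) * n ^ (-(2 / 3 : ℝ)) := by
  have h1 : x ^ (2 / 3 : ℝ) ≤ (500 / (r * n)) ^ (2 / 3 : ℝ) :=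
    Real.rpow_le_rpow hx0 hx (by norm_num)
  refine h1.trans ?_
  have h2 : (500 / (r * n)) ^ (2 / 3 : ℝ) =
      (500 : ℝ) ^ (2 / 3 : ℝ) * (r ^ (-(2 / 3 : ℝ)) * n ^ (-(2 / 3 : ℝ))) := by
    rw [Real.div_rpow (by norm_num) (by positivity), Real.mul_rpow hr.le hn.le,
      Real.rpow_neg hr.le, Real.rpow_neg hn.le]
    field_simp
  rw [h2, mul_assoc]
  have h3 : (500 : ℝ) ^ (2 / 3 : ℝ) ≤ 500 := by
    calc (500 : ℝ) ^ (2 / 3 : ℝ) ≤ (500 : ℝ) ^ (1 : ℝ) :=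
          Real.rpow_le_rpow_of_exponent_le (by norm_num) (by norm_num)
      _ = 500 := Real.rpow_one _
  have h4 : 0 ≤ r ^ (-(2 / 3 : ℝ)) * n ^ (-(2 / 3 : ℝ)) := by positivity
  exact mul_le_mul_of_nonneg_right h3 h4

theorem hok : Ok (fun _ : Edg => (1 / 2 : ℝ)) := fun _ => ⟨by norm_num, by norm_num⟩

end TTWO

open TTWO

theorem t_TWO : Pool.Agent.W424.OD.U3 → S_TWO := by
  rintro ⟨C, hC, hU⟩
  refine ⟨500 * (1 + C) ^ 3, by positivity, ?_⟩
  intro n r v w hn hv hw hr hrm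
  obtain ⟨v1, v2, v3, v4⟩ := ctr_bd hv
  obtain ⟨w1, w2, w3, w4⟩ := ctr_bd hw
  obtain ⟨⟨s1, s2, s3, s4⟩, s5⟩ := sup_bd hrm
  have hrn : (r : ℤ) * 8 ≤ n := by omega
  have hrR : (1 : ℝ) ≤ r := by exact_mod_cast hr
  have hr0 : (0 : ℝ) < r := by linarith
  have hnR : (16 : ℝ) ≤ n := by exact_mod_cast hn
  have hn0 : (0 : ℝ) < n := by linarith
  obtain ⟨k1, hk1⟩ : ∃ k1 : ℕ, k1 = r / 3 := ⟨_, rfl⟩
  obtain ⟨k3, hk3⟩ : ∃ k3 : ℕ, k3 = n / 5 := ⟨_, rfl⟩
  have hk3n : (n : ℝ) ≤ 10 * k3 := by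
    have : n ≤ 10 * k3 := by omega
    exact_mod_cast this
  have hk30 : (0 : ℝ) < k3 := by linarith
  have hD : 0 ≤ (r : ℝ) ^ (-(2 / 3 : ℝ)) * (n : ℝ) ^ (-(2 / 3 : ℝ)) := by positivity
  have hC1 : C ≤ (1 + C) ^ 3 := by nlinarith [mul_pos hC hC, mul_pos (mul_pos hC hC) hC]
  have hC2 : C ^ 2 ≤ (1 + C) ^ 3 := by nlinarith [mul_pos hC hC, mul_pos (mul_pos hC hC) hC]
  have hC3 : C ^ 3 ≤ (1 + C) ^ 3 := by
    apply pow_le_pow_left₀ hC.le
    linarith
  by_cases hr3 : r < 3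
  · -- one event
    have hsub : blk v k3 ⊆ RE 0 n 0 n := blk_box (by omega) (by omega) (by omega) (by omega)
    have h1 := hU v 1 k3 le_rfl (by omega) (RE 0 n 0 n) hsub
    have h2 : Pr (fun _ => (1 / 2 : ℝ)) (RE 0 n 0 n) (fun F => E n v F ∧ E n w F) ≤
        PQ (1 / 2) (RE 0 n 0 n) (fun F => A3v v 1 k3 (↑F : Set Edg)) := by
      apply Pr_mono hok
      rintro F _ ⟨hF, -⟩
      exact E_A3v hF le_rfl (by omega) (by omega) (by omega) (by omega) (by omega)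
    have hr2 : (r : ℝ) ≤ 2 := by
      have : r ≤ 2 := by omega
      exact_mod_cast this
    have h3 := num (x := ((1 : ℕ) : ℝ) / k3) hr0 hn0 (by positivity) (by
      rw [div_le_div_iff₀ hk30 (by positivity)]
      push_cast
      nlinarith)
    refine (h2.trans h1).trans ?_
    calc C * (((1 : ℕ) : ℝ) / k3) ^ (2 / 3 : ℝ)
        ≤ (1 + C) ^ 3 * (500 * (r : ℝ) ^ (-(2 / 3 : ℝ)) * (n : ℝ) ^ (-(2 / 3 : ℝ))) := by
          apply mul_le_mul hC1 h3 (by positivity) (by positivity)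
      _ = _ := by ring
  · have hk1r : (r : ℝ) ≤ 5 * k1 := by
      have : r ≤ 5 * k1 := by omega
      exact_mod_cast this
    have hk10 : (0 : ℝ) < k1 := by linarith
    have hs1 : blk v k1 ⊆ RE 0 n 0 n := blk_box (by omega) (by omega) (by omega) (by omega)
    have hs2 : blk w k1 ⊆ RE 0 n 0 n := blk_box (by omega) (by omega) (by omega) (by omega)
    have hd12 : Disjoint (blk v k1) (blk w k1) := disj_blk (by omega) s5
    have h1 := hU v 1 k1 le_rfl (by omega) (RE 0 n 0 n) hs1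
    have h1' := hU w 1 k1 le_rfl (by omega) (RE 0 n 0 n) hs2
    have hA1 : ∀ F, F ⊆ RE 0 n 0 n → (A3v v 1 k1 (↑F : Set Edg) ↔
        A3v v 1 k1 (↑(F ∩ blk v k1) : Set Edg)) := fun F _ => locF Finset.sdiff_subset F
    have hA2 : ∀ F, F ⊆ RE 0 n 0 n → (A3v w 1 k1 (↑F : Set Edg) ↔
        A3v w 1 k1 (↑(F ∩ blk w k1) : Set Edg)) := fun F _ => locF Finset.sdiff_subset F
    have hp0 : 0 ≤ (((1 : ℕ) : ℝ) / k1) ^ (2 / 3 : ℝ) := by positivity
    by_cases hr5 : 2 * r ≤ n / 5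
    · -- three events
      have hs3 : blk v k3 ⊆ RE 0 n 0 n := blk_box (by omega) (by omega) (by omega) (by omega)
      have h3 := hU v (2 * r) k3 (by omega) (by omega) (RE 0 n 0 n) hs3
      have hT3 : blk v k3 \ blk v (2 * r) ⊆ RE 0 n 0 n := Finset.sdiff_subset.trans hs3
      have sub1 : blk v k1 ⊆ blk v (2 * r) := by
        unfold blk
        apply RE_subset <;> push_cast <;> omega
      have sub2 : blk w k1 ⊆ blk v (2 * r) := by
        unfold blk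
        apply RE_subset <;> push_cast <;> omega
      have hd13 : Disjoint (blk v k1) (blk v k3 \ blk v (2 * r)) :=
        Finset.disjoint_of_subset_left sub1 Finset.disjoint_sdiff
      have hd23 : Disjoint (blk w k1) (blk v k3 \ blk v (2 * r)) :=
        Finset.disjoint_of_subset_left sub2 Finset.disjoint_sdiff
      have hA3 : ∀ F, F ⊆ RE 0 n 0 n → (A3v v (2 * r) k3 (↑F : Set Edg) ↔
          A3v v (2 * r) k3 (↑(F ∩ (blk v k3 \ blk v (2 * r))) : Set Edg)) := fun F _ =>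
        locF (Finset.Subset.refl _) F
      have i2 := Pr_indep (p := fun _ => (1 / 2 : ℝ)) hs2 hT3 hd23
        (A := fun F => A3v w 1 k1 (↑F : Set Edg)) (B := fun F => A3v v (2 * r) k3 (↑F : Set Edg))
        hA2 hA3
      have hA23 : ∀ F, F ⊆ RE 0 n 0 n →
          ((A3v w 1 k1 (↑F : Set Edg) ∧ A3v v (2 * r) k3 (↑F : Set Edg)) ↔
          (A3v w 1 k1 (↑(F ∩ (blk w k1 ∪ (blk v k3 \ blk v (2 * r)))) : Set Edg) ∧
            A3v v (2 * r) k3 (↑(F ∩ (blk w k1 ∪ (blk v k3 \ blk v (2 * r)))) : Set Edg))) := by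
        intro F _
        exact and_congr
          (locF (Finset.sdiff_subset.trans Finset.subset_union_left) F)
          (locF Finset.subset_union_right F)
      have i1 := Pr_indep (p := fun _ => (1 / 2 : ℝ)) hs1 (Finset.union_subset hs2 hT3)
        (Finset.disjoint_union_right.2 ⟨hd12, hd13⟩)
        (A := fun F => A3v v 1 k1 (↑F : Set Edg))
        (B := fun F => A3v w 1 k1 (↑F : Set Edg) ∧ A3v v (2 * r) k3 (↑F : Set Edg))
        hA1 hA23
      have h2 : Pr (fun _ => (1 / 2 : ℝ)) (RE 0 n 0 n) (fun F => E n v F ∧ E n w F) ≤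
          Pr (fun _ => (1 / 2 : ℝ)) (RE 0 n 0 n) (fun F => A3v v 1 k1 (↑F : Set Edg) ∧
            (A3v w 1 k1 (↑F : Set Edg) ∧ A3v v (2 * r) k3 (↑F : Set Edg))) := by
        apply Pr_mono hok
        rintro F _ ⟨hF, hF'⟩
        exact ⟨E_A3v hF le_rfl (by omega) (by omega) (by omega) (by omega) (by omega),
          E_A3v hF' le_rfl (by omega) (by omega) (by omega) (by omega) (by omega),
          E_A3v hF (by omega) (by omega) (by omega) (by omega) (by omega) (by omega)⟩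
      rw [i1, i2] at h2
      have hq0 : 0 ≤ (((2 * r : ℕ) : ℝ) / k3) ^ (2 / 3 : ℝ) := by positivity
      have h4 := num (x := (((1 : ℕ) : ℝ) / k1) * ((((1 : ℕ) : ℝ) / k1) *
        (((2 * r : ℕ) : ℝ) / k3))) hr0 hn0 (by positivity) (by
          push_cast
          have e1 : (1 : ℝ) / k1 ≤ 5 / r := by
            rw [div_le_div_iff₀ hk10 hr0]; linarith
          have e2 : (2 * (r : ℝ)) / k3 ≤ 20 * r / n := by
            rw [div_le_div_iff₀ hk30 hn0]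
            nlinarith
          have e3 : (1 : ℝ) / k1 * (1 / k1 * (2 * r / k3)) ≤ 5 / r * (5 / r * (20 * r / n)) := by
            gcongr
          refine e3.trans (le_of_eq ?_)
          field_simp
          norm_num)
      rw [Real.mul_rpow (by positivity) (by positivity),
        Real.mul_rpow (by positivity) (by positivity)] at h4
      refine h2.trans ?_
      have h5 : Pr (fun _ => (1 / 2 : ℝ)) (RE 0 n 0 n) (fun F => A3v v 1 k1 (↑F : Set Edg)) *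
          (Pr (fun _ => (1 / 2 : ℝ)) (RE 0 n 0 n) (fun F => A3v w 1 k1 (↑F : Set Edg)) *
          Pr (fun _ => (1 / 2 : ℝ)) (RE 0 n 0 n) (fun F => A3v v (2 * r) k3 (↑F : Set Edg))) ≤
          (C * (((1 : ℕ) : ℝ) / k1) ^ (2 / 3 : ℝ)) * ((C * (((1 : ℕ) : ℝ) / k1) ^ (2 / 3 : ℝ)) *
          (C * (((2 * r : ℕ) : ℝ) / k3) ^ (2 / 3 : ℝ))) := by
        refine mul_le_mul h1 (mul_le_mul h1' h3 (Pr_nonneg hok _ _) (by positivity))
          (mul_nonneg (Pr_nonneg hok _ _) (Pr_nonneg hok _ _)) (by positivity)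
      refine h5.trans ?_
      calc (C * (((1 : ℕ) : ℝ) / k1) ^ (2 / 3 : ℝ)) * ((C * (((1 : ℕ) : ℝ) / k1) ^ (2 / 3 : ℝ)) *
          (C * (((2 * r : ℕ) : ℝ) / k3) ^ (2 / 3 : ℝ)))
          = C ^ 3 * ((((1 : ℕ) : ℝ) / k1) ^ (2 / 3 : ℝ) * ((((1 : ℕ) : ℝ) / k1) ^ (2 / 3 : ℝ) *
            (((2 * r : ℕ) : ℝ) / k3) ^ (2 / 3 : ℝ))) := by ring
        _ ≤ (1 + C) ^ 3 * (500 * (r : ℝ) ^ (-(2 / 3 : ℝ)) * (n : ℝ) ^ (-(2 / 3 : ℝ))) := by
          apply mul_le_mul hC3 h4 (by positivity) (by positivity)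
        _ = _ := by ring
    · -- two events
      have hrn2 : (n : ℝ) ≤ 10 * r := by
        have : n ≤ 10 * r := by omega
        exact_mod_cast this
      have i1 := Pr_indep (p := fun _ => (1 / 2 : ℝ)) hs1 hs2 hd12
        (A := fun F => A3v v 1 k1 (↑F : Set Edg))
        (B := fun F => A3v w 1 k1 (↑F : Set Edg)) hA1 hA2
      have h2 : Pr (fun _ => (1 / 2 : ℝ)) (RE 0 n 0 n) (fun F => E n v F ∧ E n w F) ≤
          Pr (fun _ => (1 / 2 : ℝ)) (RE 0 n 0 n) (fun F => A3v v 1 k1 (↑F : Set Edg) ∧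
            A3v w 1 k1 (↑F : Set Edg)) := by
        apply Pr_mono hok
        rintro F _ ⟨hF, hF'⟩
        exact ⟨E_A3v hF le_rfl (by omega) (by omega) (by omega) (by omega) (by omega),
          E_A3v hF' le_rfl (by omega) (by omega) (by omega) (by omega) (by omega)⟩
      rw [i1] at h2
      have h4 := num (x := (((1 : ℕ) : ℝ) / k1) * (((1 : ℕ) : ℝ) / k1)) hr0 hn0
        (by positivity) (by
          push_cast
          have e1 : (1 : ℝ) / k1 ≤ 5 / r := by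
            rw [div_le_div_iff₀ hk10 hr0]; linarith
          have e3 : (1 : ℝ) / k1 * (1 / k1) ≤ 5 / r * (5 / r) := by
            gcongr
          refine e3.trans ?_
          rw [div_mul_div_comm, div_le_div_iff₀ (by positivity) (by positivity)]
          have : (r : ℝ) * n ≤ r * (10 * r) := by gcongr
          nlinarith)
      rw [Real.mul_rpow (by positivity) (by positivity)] at h4
      refine h2.trans ?_
      have h5 : Pr (fun _ => (1 / 2 : ℝ)) (RE 0 n 0 n) (fun F => A3v v 1 k1 (↑F : Set Edg)) *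
          Pr (fun _ => (1 / 2 : ℝ)) (RE 0 n 0 n) (fun F => A3v w 1 k1 (↑F : Set Edg)) ≤
          (C * (((1 : ℕ) : ℝ) / k1) ^ (2 / 3 : ℝ)) *
            (C * (((1 : ℕ) : ℝ) / k1) ^ (2 / 3 : ℝ)) :=
        mul_le_mul h1 h1' (Pr_nonneg hok _ _) (by positivity)
      refine h5.trans ?_
      calc (C * (((1 : ℕ) : ℝ) / k1) ^ (2 / 3 : ℝ)) * (C * (((1 : ℕ) : ℝ) / k1) ^ (2 / 3 : ℝ))
          = C ^ 2 * ((((1 : ℕ) : ℝ) / k1) ^ (2 / 3 : ℝ) * (((1 : ℕ) : ℝ) / k1) ^ (2 / 3 : ℝ)) := by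
            ring
        _ ≤ (1 + C) ^ 3 * (500 * (r : ℝ) ^ (-(2 / 3 : ℝ)) * (n : ℝ) ^ (-(2 / 3 : ℝ))) := by
          apply mul_le_mul hC2 h4 (by positivity) (by positivity)
        _ = _ := by ring

end Pool.Agent.W801.AV
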