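import Pool.Agent.W801.AV.Stm2
import Pool.Agent.W801.AV.T_TWO

/-! Project AV: one-point upper bound (written by helper735). -/

set_option autoImplicit false

namespace Pool.Agent.W801.AV
open H974 H12S Finset H389NS H984P H984N H342P
open Pool.Agent.W424.OD TTWO

theorem t_ONU : Pool.Agent.W424.OD.U3 → S_ONU := by
  rintro ⟨C, hC, hU⟩
  refine ⟨500 * (1 + C), by positivity, ?_⟩
  intro n v hn hv
  obtain ⟨v1, v2, v3, v4⟩ := ctr_bd hv
  have hnR : (16 : ℝ) ≤ n := by exact_mod_cast hn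
  have hn0 : (0 : ℝ) < n := by linarith
  obtain ⟨k3, hk3⟩ : ∃ k3 : ℕ, k3 = n / 5 := ⟨_, rfl⟩
  have hk3n : (n : ℝ) ≤ 10 * k3 := by
    have : n ≤ 10 * k3 := by omega
    exact_mod_cast this
  have hk30 : (0 : ℝ) < k3 := by linarith
  have hsub : blk v k3 ⊆ RE 0 n 0 n := blk_box (by omega) (by omega) (by omega) (by omega)
  have h1 := hU v 1 k3 le_rfl (by omega) (RE 0 n 0 n) hsub
  have h2 : Pr (fun _ => (1 / 2 : ℝ)) (RE 0 n 0 n) (E n v) ≤
      PQ (1 / 2) (RE 0 n 0 n) (fun F => A3v v 1 k3 (↑F : Set Edg)) := by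
    apply Pr_mono hok
    rintro F _ hF
    exact E_A3v hF le_rfl (by omega) (by omega) (by omega) (by omega) (by omega)
  have h3 := num (r := 1) (x := ((1 : ℕ) : ℝ) / k3) one_pos hn0 (by positivity) (by
    rw [div_le_div_iff₀ hk30 (by positivity)]
    push_cast
    nlinarith)
  rw [Real.one_rpow, mul_one] at h3
  refine (h2.trans h1).trans ?_
  calc C * (((1 : ℕ) : ℝ) / k3) ^ (2 / 3 : ℝ)
      ≤ (1 + C) * (500 * (n : ℝ) ^ (-(2 / 3 : ℝ))) := by
        apply mul_le_mul (by linarith) h3 (by positivity) (by positivity)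
    _ = _ := by ring

end Pool.Agent.W801.AV

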