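import Pool.Agent.W801.AV.All
import Pool.Agent.W801.AV.T_ONU
import Pool.Agent.W801.AV.T_LOC
import Pool.Agent.W801.AV.T_BOX

set_option autoImplicit false

namespace Pool.Agent.W801.AV

theorem a_BOX : S_BOX := t_BOX a_FIR a_SEC (t_LOC (t_ONU Pool.Agent.W424.KI.u3) a_TWO) t_LRG

end Pool.Agent.W801.AV
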