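import Pool.Agent.W801.AV.Stm

set_option autoImplicit false

namespace Pool.Agent.W801.AV
open H974 H12S Finset H389NS H984P H984N H342P
open Pool.Agent.W424.OD

namespace TFIR


/-- the offsets -/
noncomputable def DD : Finset (ℤ × ℤ) := Finset.Icc (-1 : ℤ) 1 ×ˢ Finset.Icc (-1 : ℤ) 1

theorem DD_card : DD.card = 9 := by
  unfold DD
  rw [Finset.card_product]
  simp

/-- the centres -/
def cc (n : ℕ) (p : ℕ × ℕ) : ℤ × ℤ := (((n + 1) / 2 : ℕ) + (p.1 : ℤ), ((n + 1) / 2 : ℕ) + (p.2 : ℤ))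

theorem cc_mem (n : ℕ) (hn : 80 ≤ n) (p : ℕ × ℕ)
    (hp : p ∈ Finset.range (n / 20) ×ˢ Finset.range (n / 20)) (δ : ℤ × ℤ) (hδ : δ ∈ DD) :
    8 * |2 * (cc n p + δ).1 - n| ≤ n ∧ 8 * |2 * (cc n p + δ).2 - n| ≤ n := by
  unfold DD at hδ
  rw [Finset.mem_product, Finset.mem_Icc, Finset.mem_Icc] at hδ
  rw [Finset.mem_product, Finset.mem_range, Finset.mem_range] at hp
  obtain ⟨⟨d1, d2⟩, ⟨d3, d4⟩⟩ := hδ
  obtain ⟨p1, p2⟩ := hp
  have e1 : (cc n p + δ).1 = (((n + 1) / 2 : ℕ) : ℤ) + (p.1 : ℤ) + δ.1 := rfl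
  have e2 : (cc n p + δ).2 = (((n + 1) / 2 : ℕ) : ℤ) + (p.2 : ℤ) + δ.2 := rfl
  rw [e1, e2]
  constructor
  · have h : |2 * ((((n + 1) / 2 : ℕ) : ℤ) + (p.1 : ℤ) + δ.1) - n| ≤ 2 * ((n / 20 : ℕ) : ℤ) + 1 := by
      rw [abs_le]
      constructor <;> omega
    omega
  · have h : |2 * ((((n + 1) / 2 : ℕ) : ℤ) + (p.2 : ℤ) + δ.2) - n| ≤ 2 * ((n / 20 : ℕ) : ℤ) + 1 := by
      rw [abs_le]
      constructor <;> omega
    omega

theorem gen (n : ℕ) (hn : 80 ≤ n) (P : ℤ × ℤ → ℝ) (hP : ∀ w, 0 ≤ P w) (x : ℝ)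
    (Ct : Finset (ℤ × ℤ))
    (hCt : ∀ v : ℤ × ℤ, 8 * |2 * v.1 - n| ≤ n → 8 * |2 * v.2 - n| ≤ n → v ∈ Ct)
    (h : ∀ c ∈ Ct, x ≤ ∑ δ ∈ DD, P (c + δ)) :
    ((n / 20 : ℕ) : ℝ) ^ 2 * x ≤ 9 * ∑ w ∈ Ct, P w := by
  have h0 : (0 : ℤ × ℤ) ∈ DD := by
    unfold DD
    simp
  calc ((n / 20 : ℕ) : ℝ) ^ 2 * x
      = ∑ p ∈ Finset.range (n / 20) ×ˢ Finset.range (n / 20), x := by
        rw [Finset.sum_const, Finset.card_product, Finset.card_range, nsmul_eq_mul, Nat.cast_mul]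
        ring
    _ ≤ ∑ p ∈ Finset.range (n / 20) ×ˢ Finset.range (n / 20), ∑ δ ∈ DD, P (cc n p + δ) := by
        apply Finset.sum_le_sum
        intro p hp
        apply h
        have h1 := cc_mem n hn p hp 0 h0
        rw [add_zero] at h1
        exact hCt _ h1.1 h1.2
    _ = ∑ δ ∈ DD, ∑ p ∈ Finset.range (n / 20) ×ˢ Finset.range (n / 20), P (cc n p + δ) :=
        Finset.sum_comm
    _ ≤ ∑ δ ∈ DD, ∑ w ∈ Ct, P w := by
        apply Finset.sum_le_sum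
        intro δ hδ
        have hinj : Set.InjOn (fun p : ℕ × ℕ => cc n p + δ)
            ((Finset.range (n / 20) ×ˢ Finset.range (n / 20) : Finset (ℕ × ℕ)) : Set (ℕ × ℕ)) := by
          intro p _ p' _ hpp
          have h1 : cc n p = cc n p' := add_right_cancel hpp
          have h2 := congrArg Prod.fst h1
          have h3 := congrArg Prod.snd h1
          unfold cc at h2 h3
          simp only at h2 h3
          ext
          · omega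
          · omega
        rw [← Finset.sum_image (f := P) hinj]
        apply Finset.sum_le_sum_of_subset_of_nonneg
        · intro w hw
          rw [Finset.mem_image] at hw
          obtain ⟨p, hp, rfl⟩ := hw
          have h1 := cc_mem n hn p hp δ hδ
          exact hCt _ h1.1 h1.2
        · intro w _ _
          exact hP w
    _ = 9 * ∑ w ∈ Ct, P w := by
        rw [Finset.sum_const, DD_card, nsmul_eq_mul]
        norm_num

theorem num (n : ℕ) (hn : 80 ≤ n) (c0 S : ℝ) (hc0 : 0 < c0)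
    (h : ((n / 20 : ℕ) : ℝ) ^ 2 * (c0 * (n : ℝ) ^ (-(2 / 3 : ℝ))) ≤ 9 * S) :
    c0 / 14400 * (n : ℝ) ^ (4 / 3 : ℝ) ≤ S := by
  have hn0 : (0 : ℝ) < n := by
    have : 0 < n := by omega
    exact_mod_cast this
  have h1 : (n : ℝ) / 40 ≤ ((n / 20 : ℕ) : ℝ) := by
    have h2 : n ≤ 40 * (n / 20) := by omega
    have h3 : (n : ℝ) ≤ ((40 * (n / 20) : ℕ) : ℝ) := by exact_mod_cast h2
    push_cast at h3
    linarith
  have h2 : (n : ℝ) ^ 2 / 1600 ≤ ((n / 20 : ℕ) : ℝ) ^ 2 := by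
    have := pow_le_pow_left₀ (by positivity) h1 2
    calc (n : ℝ) ^ 2 / 1600 = ((n : ℝ) / 40) ^ 2 := by ring
      _ ≤ _ := this
  have h3 : (n : ℝ) ^ (4 / 3 : ℝ) = (n : ℝ) ^ 2 * (n : ℝ) ^ (-(2 / 3 : ℝ)) := by
    rw [← Real.rpow_natCast, ← Real.rpow_add hn0]
    norm_num
  have h4 : (n : ℝ) ^ 2 / 1600 * (c0 * (n : ℝ) ^ (-(2 / 3 : ℝ))) ≤ 9 * S :=
    le_trans (mul_le_mul_of_nonneg_right h2 (by positivity)) h
  rw [h3]
  linarith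

theorem okh : Ok (fun _ : Edg => (1 / 2 : ℝ)) := fun _ => ⟨by norm_num, by norm_num⟩

theorem ring_le (n : ℕ) (c : ℤ × ℤ) :
    Pr (fun _ => (1 / 2 : ℝ)) (RE 0 n 0 n) (fun F => ∃ w ∈ bdB c 1, E n w F) ≤
      ∑ δ ∈ DD, Pr (fun _ => (1 / 2 : ℝ)) (RE 0 n 0 n) (E n (c + δ)) := by
  refine le_trans (Pr_mono okh ?_)
    (Pr_exists_le okh (RE 0 n 0 n) DD (fun δ F => E n (c + δ) F))
  rintro F _ ⟨w, hw, hE⟩
  have hw' : |w.1 - c.1| ≤ ((1 : ℕ) : ℤ) ∧ |w.2 - c.2| ≤ ((1 : ℕ) : ℤ) ∧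
    (|w.1 - c.1| = ((1 : ℕ) : ℤ) ∨ |w.2 - c.2| = ((1 : ℕ) : ℤ)) := hw
  obtain ⟨h1, h2, _⟩ := hw'
  rw [abs_le] at h1 h2
  refine ⟨w - c, ?_, ?_⟩
  · unfold DD
    rw [Finset.mem_product, Finset.mem_Icc, Finset.mem_Icc]
    have e1 : (w - c).1 = w.1 - c.1 := rfl
    have e2 : (w - c).2 = w.2 - c.2 := rfl
    rw [e1, e2]
    push_cast at h1 h2
    exact ⟨h1, h2⟩
  · have e : c + (w - c) = w := by abel
    rw [e]
    exact hE

theorem mem_Ctr (n : ℕ) (v : ℤ × ℤ) (h1 : 8 * |2 * v.1 - n| ≤ n) (h2 : 8 * |2 * v.2 - n| ≤ n) :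
    v ∈ Ctr n := by
  unfold Ctr
  rw [Finset.mem_filter]
  refine ⟨?_, h1, h2⟩
  unfold Plain.box
  rw [Finset.mem_product, Finset.mem_Icc, Finset.mem_Icc]
  have a1 := le_abs_self (2 * v.1 - (n : ℤ))
  have a2 := neg_abs_le (2 * v.1 - (n : ℤ))
  have b1 := le_abs_self (2 * v.2 - (n : ℤ))
  have b2 := neg_abs_le (2 * v.2 - (n : ℤ))
  refine ⟨⟨?_, ?_⟩, ⟨?_, ?_⟩⟩ <;> omega

end TFIR

open TFIR in
theorem t_FIR : S_ONE → S_FRE → S_SML → S_FIR := by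
  rintro ⟨c0, hc0, hone⟩ hfre ⟨q, n0, hq, hsml⟩
  refine ⟨c0 / 14400 * q, max n0 80, by positivity, ?_⟩
  intro n hn
  have hn1 : n0 ≤ n := le_trans (le_max_left _ _) hn
  have hn2 : 80 ≤ n := le_trans (le_max_right _ _) hn
  have hS := gen n hn2 (fun w => Pr (fun _ => (1 / 2 : ℝ)) (RE 0 n 0 n) (E n w))
    (fun w => Pr_nonneg okh _ _) (c0 * (n : ℝ) ^ (-(2 / 3 : ℝ))) (Ctr n) (mem_Ctr n)
    (fun c hc => le_trans (hone n c (by omega) hc) (ring_le n c))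
  have hN := num n hn2 c0 _ hc0 hS
  calc c0 / 14400 * q * (n : ℝ) ^ (4 / 3 : ℝ) = (c0 / 14400 * (n : ℝ) ^ (4 / 3 : ℝ)) * q := by ring
    _ ≤ (∑ w ∈ Ctr n, Pr (fun _ => (1 / 2 : ℝ)) (RE 0 n 0 n) (E n w)) * q :=
        mul_le_mul_of_nonneg_right hN hq.le
    _ = ∑ w ∈ Ctr n, Pr (fun _ => (1 / 2 : ℝ)) (RE 0 n 0 n) (E n w) * q := by
        rw [Finset.sum_mul]
    _ ≤ ∑ w ∈ Ctr n,
        Pr (fun _ => (1 / 2 : ℝ)) (RE 0 n 0 n) (fun F => E n w F ∧ Sml n (Plain.cluster F w) F) := by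
        apply Finset.sum_le_sum
        intro w hw
        have hb : w ∈ Plain.box n := (Finset.mem_filter.mp hw).1
        exact le_trans (mul_le_mul_of_nonneg_left (hsml n hn1) (Pr_nonneg okh _ _)) (hfre n w hb)

end Pool.Agent.W801.AV
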