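import Pool.Agent.W801.AV.Stm

/-!
# Project AV, part FRE: given the cluster of a vertex, the rest is fresh.
-/

set_option autoImplicit false

namespace Pool.Agent.W801.AV
open H974 H12S Finset H389NS H984P H984N H342P
open Pool.Agent.W424.OD

namespace TFRE

/-- cluster as a set -/
def cl (F : Finset Edg) (v : Vtx) : Set Vtx := {x | Reach (↑F : Set Edg) v x}

open Classical in
/-- edges of `S` with an end in `R` -/
noncomputable def TT (S : Finset Edg) (R : Finset Vtx) : Finset Edg :=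
  S.filter (fun e => src e ∈ R ∨ tgt e ∈ R)

theorem mem_TT {S : Finset Edg} {R : Finset Vtx} {e : Edg} :
    e ∈ TT S R ↔ e ∈ S ∧ (src e ∈ R ∨ tgt e ∈ R) := by
  unfold TT
  rw [Finset.mem_filter]

theorem cl_mono {F G : Finset Edg} (h : F ⊆ G) (v : Vtx) : cl F v ⊆ cl G v := by
  intro x hx
  exact Reach.mono (by exact_mod_cast h) hx

theorem cl_local {S F : Finset Edg} (hF : F ⊆ S) (w : Vtx) (R : Finset Vtx) :
    cl F w = (↑R : Set Vtx) ↔ cl (F ∩ TT S R) w = (↑R : Set Vtx) := by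
  constructor
  · intro h
    apply Set.Subset.antisymm
    · rw [← h]
      exact cl_mono Finset.inter_subset_left w
    · intro x hx
      rw [← h] at hx
      have hx' : Reach (↑F : Set Edg) w x := hx
      clear hx
      show Reach (↑(F ∩ TT S R) : Set Edg) w x
      induction hx' with
      | refl => exact Reach.refl _ _
      | @tail b c hb hs ih =>
        refine ih.trans (Adj.reach ?_)
        obtain ⟨e, he, hc⟩ := hs
        have heF : e ∈ F := Finset.mem_coe.mp he
        have hbR : b ∈ R := by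
          have h1 : b ∈ cl F w := hb
          rw [h] at h1
          exact Finset.mem_coe.mp h1
        refine ⟨e, ?_, hc⟩
        rw [Finset.mem_coe, Finset.mem_inter, mem_TT]
        refine ⟨heF, hF heF, ?_⟩
        rcases hc with ⟨h1, h2⟩ | ⟨h1, h2⟩
        · left; rw [h1]; exact hbR
        · right; rw [h2]; exact hbR
  · intro h
    apply Set.Subset.antisymm
    · intro x hx
      have hx' : Reach (↑F : Set Edg) w x := hx
      clear hx
      induction hx' with
      | refl =>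
        rw [← h]
        exact Reach.refl _ _
      | @tail b c hb hs ih =>
        obtain ⟨e, he, hc⟩ := hs
        have heF : e ∈ F := Finset.mem_coe.mp he
        have hbR : b ∈ R := Finset.mem_coe.mp ih
        rw [← h] at ih ⊢
        have h3 : Reach (↑(F ∩ TT S R) : Set Edg) w b := ih
        refine h3.trans (Adj.reach ?_)
        refine ⟨e, ?_, hc⟩
        rw [Finset.mem_coe, Finset.mem_inter, mem_TT]
        refine ⟨heF, hF heF, ?_⟩
        rcases hc with ⟨h1, h2⟩ | ⟨h1, h2⟩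
        · left; rw [h1]; exact hbR
        · right; rw [h2]; exact hbR
    · rw [← h]
      exact cl_mono Finset.inter_subset_left w

theorem off_reach {S F : Finset Edg} (hF : F ⊆ S) {w : Vtx} {R : Finset Vtx}
    (h : cl F w = (↑R : Set Vtx)) {a b : Vtx} (ha : a ∉ R) (hab : Reach (↑F : Set Edg) a b) :
    Reach (↑(F ∩ (S \ TT S R)) : Set Edg) a b ∧ b ∉ R := by
  induction hab with
  | refl => exact ⟨Reach.refl _ _, ha⟩
  | @tail b c hb hs ih =>
    obtain ⟨h1, h2⟩ := ih
    have hc' : c ∉ R := by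
      intro hc
      apply h2
      have h3 : c ∈ cl F w := by
        rw [h]
        exact Finset.mem_coe.mpr hc
      have h4 : b ∈ cl F w := Reach.trans h3 (Adj.reach hs.symm)
      rw [h] at h4
      exact Finset.mem_coe.mp h4
    refine ⟨h1.trans (Adj.reach ?_), hc'⟩
    obtain ⟨e, he, hc⟩ := hs
    have heF : e ∈ F := Finset.mem_coe.mp he
    refine ⟨e, ?_, hc⟩
    rw [Finset.mem_coe, Finset.mem_inter, Finset.mem_sdiff, mem_TT]
    refine ⟨heF, hF heF, ?_⟩
    rintro ⟨-, h5⟩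
    rcases hc with ⟨h6, h7⟩ | ⟨h6, h7⟩
    · rw [h6, h7] at h5
      rcases h5 with h5 | h5
      · exact h2 h5
      · exact hc' h5
    · rw [h6, h7] at h5
      rcases h5 with h5 | h5
      · exact hc' h5
      · exact h2 h5

/-- clusters off `W` are small -/
def SM (B : Finset Vtx) (P : Vtx → Vtx → Prop) (W : Set Vtx) (F : Finset Edg) : Prop :=
  ∀ a ∈ B, a ∉ W → ∀ b ∈ cl F a, P a b

theorem cl_sub {S F : Finset Edg} {B : Finset Vtx} (hS : ∀ e ∈ S, src e ∈ B ∧ tgt e ∈ B)
    (hF : F ⊆ S) {w : Vtx} (hw : w ∈ B) : cl F w ⊆ (↑B : Set Vtx) := by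
  intro x hx
  have hx' : Reach (↑F : Set Edg) w x := hx
  clear hx
  induction hx' with
  | refl => exact Finset.mem_coe.mpr hw
  | tail _ hs _ =>
    obtain ⟨e, he, hc⟩ := hs
    have h1 := hS e (hF (Finset.mem_coe.mp he))
    rcases hc with ⟨h6, h7⟩ | ⟨h6, h7⟩
    · rw [← h7]; exact Finset.mem_coe.mpr h1.2
    · rw [← h6]; exact Finset.mem_coe.mpr h1.1

theorem key {p : Edg → ℝ} (hp : Ok p) (S : Finset Edg) (B : Finset Vtx)
    (hS : ∀ e ∈ S, src e ∈ B ∧ tgt e ∈ B) (w : Vtx) (hw : w ∈ B) (P : Vtx → Vtx → Prop)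
    (Eg : Set Vtx → Prop) :
    Pr p S (fun F => Eg (cl F w)) * Pr p S (SM B P ∅) ≤
      Pr p S (fun F => Eg (cl F w) ∧ SM B P (cl F w) F) := by
  classical
  set RR : Finset (Finset Vtx) := B.powerset.filter (fun R => Eg (↑R : Set Vtx)) with hRR
  have h1 : Pr p S (fun F => Eg (cl F w)) ≤
      ∑ R ∈ RR, Pr p S (fun F => cl F w = (↑R : Set Vtx)) := by
    unfold Pr
    rw [← Ex_sum]
    apply Ex_mono hp
    intro F hF
    by_cases hE : Eg (cl F w)
    · rw [ind_of hE]
      have hsub := cl_sub hS hF hw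
      have hR0 : (↑(B.filter (fun x => x ∈ cl F w)) : Set Vtx) = cl F w := by
        ext x
        rw [Finset.mem_coe, Finset.mem_filter]
        exact ⟨fun h => h.2, fun h => ⟨Finset.mem_coe.mp (hsub h), h⟩⟩
      have hmem : B.filter (fun x => x ∈ cl F w) ∈ RR := by
        rw [hRR, Finset.mem_filter, Finset.mem_powerset, hR0]
        exact ⟨Finset.filter_subset _ _, hE⟩
      have h2 := Finset.single_le_sum (f := fun R : Finset Vtx => ind (cl F w = (↑R : Set Vtx)))
        (fun i _ => ind_nonneg _) hmem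
      refine le_trans (le_of_eq ?_) h2
      exact (ind_of hR0.symm).symm
    · rw [ind_not_of hE]
      exact Finset.sum_nonneg (fun i _ => ind_nonneg _)
  have h2 : ∀ R : Finset Vtx, Pr p S (fun F => cl F w = (↑R : Set Vtx)) * Pr p S (SM B P ∅) ≤
      Pr p S (fun F => cl F w = (↑R : Set Vtx) ∧ SM B P (↑R : Set Vtx) F) := by
    intro R
    have h3 : Pr p S (SM B P ∅) ≤
        Pr p S (fun F => SM B P (↑R : Set Vtx) (F ∩ (S \ TT S R))) := by
      apply Pr_mono hp
      intro F _ hF a ha _ b hb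
      exact hF a ha (Set.notMem_empty a) b (cl_mono Finset.inter_subset_left a hb)
    have h4 : Pr p S (fun F => cl F w = (↑R : Set Vtx) ∧
        SM B P (↑R : Set Vtx) (F ∩ (S \ TT S R))) =
        Pr p S (fun F => cl F w = (↑R : Set Vtx)) *
          Pr p S (fun F => SM B P (↑R : Set Vtx) (F ∩ (S \ TT S R))) := by
      refine Pr_indep (S := TT S R) (T := S \ TT S R) ?_ Finset.sdiff_subset
        Finset.disjoint_sdiff ?_ ?_
      · intro e he
        exact (mem_TT.mp he).1
      · intro F hF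
        exact cl_local hF w R
      · intro F _
        rw [Finset.inter_assoc, Finset.inter_self]
    calc Pr p S (fun F => cl F w = (↑R : Set Vtx)) * Pr p S (SM B P ∅)
        ≤ Pr p S (fun F => cl F w = (↑R : Set Vtx)) *
          Pr p S (fun F => SM B P (↑R : Set Vtx) (F ∩ (S \ TT S R))) :=
          mul_le_mul_of_nonneg_left h3 (Pr_nonneg hp _ _)
      _ = Pr p S (fun F => cl F w = (↑R : Set Vtx) ∧
        SM B P (↑R : Set Vtx) (F ∩ (S \ TT S R))) := h4.symm
      _ ≤ Pr p S (fun F => cl F w = (↑R : Set Vtx) ∧ SM B P (↑R : Set Vtx) F) := by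
          apply Pr_mono hp
          rintro F hF ⟨h5, h6⟩
          refine ⟨h5, ?_⟩
          intro a ha haR b hb
          have h7 := off_reach hF h5 (fun h => haR (Finset.mem_coe.mpr h)) hb
          exact h6 a ha haR b h7.1
  have h3 : ∑ R ∈ RR, Pr p S (fun F => cl F w = (↑R : Set Vtx) ∧ SM B P (↑R : Set Vtx) F) ≤
      Pr p S (fun F => Eg (cl F w) ∧ SM B P (cl F w) F) := by
    unfold Pr
    rw [← Ex_sum]
    apply Ex_mono hp
    intro F hF
    by_cases hex : ∃ R ∈ RR, cl F w = (↑R : Set Vtx) ∧ SM B P (↑R : Set Vtx) F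
    · obtain ⟨R, hR, hR1, hR2⟩ := hex
      have h4 : Eg (cl F w) ∧ SM B P (cl F w) F := by
        rw [hR1]
        rw [hRR, Finset.mem_filter] at hR
        exact ⟨hR.2, hR2⟩
      rw [ind_of h4]
      rw [Finset.sum_eq_single R]
      · exact ind_le_one _
      · intro R' _ hne
        apply ind_not_of
        rintro ⟨h5, -⟩
        apply hne
        rw [hR1] at h5
        exact (Finset.coe_injective h5).symm
      · intro h5
        exact absurd hR h5
    · rw [Finset.sum_eq_zero]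
      · exact ind_nonneg _
      · intro R hR
        apply ind_not_of
        intro h5
        exact hex ⟨R, hR, h5⟩
  calc Pr p S (fun F => Eg (cl F w)) * Pr p S (SM B P ∅)
      ≤ (∑ R ∈ RR, Pr p S (fun F => cl F w = (↑R : Set Vtx))) * Pr p S (SM B P ∅) :=
        mul_le_mul_of_nonneg_right h1 (Pr_nonneg hp _ _)
    _ = ∑ R ∈ RR, Pr p S (fun F => cl F w = (↑R : Set Vtx)) * Pr p S (SM B P ∅) := by
        rw [Finset.sum_mul]
    _ ≤ ∑ R ∈ RR, Pr p S (fun F => cl F w = (↑R : Set Vtx) ∧ SM B P (↑R : Set Vtx) F) :=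
        Finset.sum_le_sum (fun R _ => h2 R)
    _ ≤ _ := h3

end TFRE

namespace TFRE

theorem cluster_eq (F : Finset Edg) (v : ℤ × ℤ) : Plain.cluster F v = cl F v := by
  ext x
  exact Plain.mem_cluster F v x

/-- the event `E` as a property of the cluster -/
def Eg (n : ℕ) (w : ℤ × ℤ) (W : Set (ℤ × ℤ)) : Prop :=
  (w ∈ W ∧ ∃ (e : Plain.Edge) (p q : ℤ × ℤ),
    ((Plain.fst e = w ∧ Plain.snd e = p) ∨ (Plain.fst e = p ∧ Plain.snd e = w)) ∧
    p ∉ W ∧ q ∉ Plain.box n ∧ (avoidGraph W).Reachable p q) ∧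
  ∃ z ∈ W, z.1 = 0 ∨ z.1 = n ∨ z.2 = 0 ∨ z.2 = n

theorem E_eq (n : ℕ) (w : ℤ × ℤ) (F : Finset Edg) : E n w F ↔ Eg n w (cl F w) := by
  rw [← cluster_eq]
  exact Iff.rfl

theorem Sml_eq (n : ℕ) (W : Set (ℤ × ℤ)) (F : Finset Edg) :
    Sml n W F ↔ SM (Plain.box n) (fun a b => 16 * Plain.sqDist a b < (n : ℤ) ^ 2) W F := by
  unfold Sml SM
  simp only [cluster_eq]

theorem RE_box (n : ℕ) : ∀ e ∈ RE 0 n 0 n, src e ∈ Plain.box n ∧ tgt e ∈ Plain.box n := by
  rintro ⟨x, y, _ | _⟩ he
  · rw [mem_RE_false] at he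
    simp only [Plain.box, src_mk, tgt_false, Finset.mem_product, Finset.mem_Icc]
    omega
  · rw [mem_RE_true] at he
    simp only [Plain.box, src_mk, tgt_true, Finset.mem_product, Finset.mem_Icc]
    omega

end TFRE

theorem t_FRE : S_FRE := by
  intro n w hw
  have hp : Ok (fun _ : Edg => (1 / 2 : ℝ)) := fun _ => ⟨by norm_num, by norm_num⟩
  have h := TFRE.key hp (RE 0 n 0 n) (Plain.box n) (TFRE.RE_box n) w hw
    (fun a b => 16 * Plain.sqDist a b < (n : ℤ) ^ 2) (TFRE.Eg n w)
  rw [Pr_congr (fun F _ => TFRE.E_eq n w F), Pr_congr (fun F _ => TFRE.Sml_eq n ∅ F)]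
  have h2 : Pr (fun _ => (1 / 2 : ℝ)) (RE 0 n 0 n)
      (fun F => E n w F ∧ Sml n (Plain.cluster F w) F) =
      Pr (fun _ => (1 / 2 : ℝ)) (RE 0 n 0 n) (fun F => TFRE.Eg n w (TFRE.cl F w) ∧
        TFRE.SM (Plain.box n) (fun a b => 16 * Plain.sqDist a b < (n : ℤ) ^ 2)
          (TFRE.cl F w) F) := by
    apply Pr_congr
    intro F _
    rw [TFRE.E_eq, TFRE.Sml_eq, TFRE.cluster_eq]
  rw [h2]
  exact h

end Pool.Agent.W801.AV
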