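import Pool.Agent.W801.AV.Stm

/-!
Project AV, part LRG: the explored cluster is the largest (helper318).
-/

set_option autoImplicit false

namespace Pool.Agent.W801.AV
open H974 H12S Finset H389NS H984P H984N H342P
open Pool.Agent.W424.OD

namespace TLRG

theorem mem_cl (F : Finset Edg) (w z : ℤ × ℤ) :
    z ∈ Plain.cluster F w ↔ (Plain.openGraph F).Reachable w z := by
  unfold Plain.cluster
  rw [Set.mem_ofPred_eq]

theorem adj_box {n : ℕ} {F : Finset Edg} (hF : F ⊆ RE 0 n 0 n) {u v : ℤ × ℤ}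
    (h : (Plain.openGraph F).Adj u v) : u ∈ Plain.box n ∧ v ∈ Plain.box n := by
  have key : ∀ e ∈ F, Plain.fst e ∈ Plain.box n ∧ Plain.snd e ∈ Plain.box n := by
    intro e he
    have h1 : e ∈ Plain.edges n := by
      rw [Plain.edges_eq]
      exact hF he
    exact (Finset.mem_filter.1 h1).2
  unfold Plain.openGraph at h
  rw [SimpleGraph.fromRel_adj] at h
  obtain ⟨-, ⟨e, he, h1, h2⟩ | ⟨e, he, h1, h2⟩⟩ := h
  · have h3 := key e he
    rw [h1, h2] at h3
    exact h3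
  · have h3 := key e he
    rw [h1, h2] at h3
    exact ⟨h3.2, h3.1⟩

theorem walk_box {n : ℕ} {F : Finset Edg} (hF : F ⊆ RE 0 n 0 n) {u v : ℤ × ℤ}
    (p : (Plain.openGraph F).Walk u v) (hu : u ∈ Plain.box n) : v ∈ Plain.box n := by
  induction p with
  | nil => exact hu
  | cons h p ih => exact ih (adj_box hF h).2

theorem cluster_box {n : ℕ} {F : Finset Edg} (hF : F ⊆ RE 0 n 0 n) {w z : ℤ × ℤ}
    (hw : w ∈ Plain.box n) (hz : z ∈ Plain.cluster F w) : z ∈ Plain.box n := by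
  rw [mem_cl] at hz
  obtain ⟨p⟩ := hz
  exact walk_box hF p hw

theorem far_one {n x : ℤ} (hn : 0 ≤ n) (h : 8 * |2 * x - n| ≤ n) :
    n ^ 2 ≤ 16 * x ^ 2 ∧ n ^ 2 ≤ 16 * (n - x) ^ 2 := by
  have h1 := neg_le_of_abs_le (le_refl |2 * x - n|)
  have h2 := le_of_abs_le (le_refl |2 * x - n|)
  have h3 : 7 * n ≤ 16 * x := by linarith
  have h4 : 7 * n ≤ 16 * (n - x) := by linarith
  constructor
  · nlinarith [mul_self_le_mul_self (by linarith : (0:ℤ) ≤ 7 * n) h3]
  · nlinarith [mul_self_le_mul_self (by linarith : (0:ℤ) ≤ 7 * n) h4]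

theorem far {n : ℕ} {w z : ℤ × ℤ} (hw : w ∈ Ctr n)
    (hz : z.1 = 0 ∨ z.1 = n ∨ z.2 = 0 ∨ z.2 = n) : (n : ℤ) ^ 2 ≤ 16 * Plain.sqDist w z := by
  unfold Ctr at hw
  obtain ⟨-, h1, h2⟩ := Finset.mem_filter.1 hw
  obtain ⟨a1, a2⟩ := far_one (Int.natCast_nonneg n) h1
  obtain ⟨b1, b2⟩ := far_one (Int.natCast_nonneg n) h2
  unfold Plain.sqDist
  rcases hz with h | h | h | h
  · rw [h]
    nlinarith [sq_nonneg (w.2 - z.2)]
  · rw [h]
    nlinarith [sq_nonneg (w.2 - z.2)]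
  · rw [h]
    nlinarith [sq_nonneg (w.1 - z.1)]
  · rw [h]
    nlinarith [sq_nonneg (w.1 - z.1)]

end TLRG

theorem t_LRG : S_LRG := by
  classical
  intro n w F hn hw hF hE hS v hL
  obtain ⟨hacc, z, hz, hzb⟩ := hE
  have hwb : w ∈ Plain.box n := by
    unfold Ctr at hw
    exact (Finset.mem_filter.1 hw).1
  have hzbox : z ∈ Plain.box n := TLRG.cluster_box hF hwb hz
  have hdist := TLRG.far hw hzb
  obtain ⟨hvb, a, ha, b, hb, hmax⟩ := hL
  rw [TLRG.mem_cl] at ha hb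
  have hvw : v ∈ Plain.cluster F w := by
    by_contra hcon
    have haw : a ∉ Plain.cluster F w := by
      intro h
      rw [TLRG.mem_cl] at h
      exact hcon ((TLRG.mem_cl F w v).2 (h.trans ha.symm))
    have habox : a ∈ Plain.box n := TLRG.cluster_box hF hvb ((TLRG.mem_cl F v a).2 ha)
    have hba : b ∈ Plain.cluster F a := (TLRG.mem_cl F a b).2 (ha.symm.trans hb)
    have h1 := hS a habox haw b hba
    have h2 := hmax w hwb z hzbox hz
    linarith
  have hcl : Plain.cluster F v = Plain.cluster F w := by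
    rw [TLRG.mem_cl] at hvw
    ext u
    rw [TLRG.mem_cl, TLRG.mem_cl]
    exact ⟨fun h => hvw.trans h, fun h => hvw.symm.trans h⟩
  have hacc2 : Accessible n F v w := by
    unfold Accessible at hacc ⊢
    rw [hcl]
    exact hacc
  refine ⟨hvw, ?_⟩
  unfold accessible
  simp only [Finset.mem_filter]
  exact ⟨hwb, hacc2⟩

end Pool.Agent.W801.AV
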