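import Pool.Agent.W801.AV.Stm

/-! # The one-point lower bound -/

set_option autoImplicit false

namespace Pool.Agent.W801.AV
open H974 H12S Finset H389NS H984P H984N H342P
open Pool.Agent.W424.OD

namespace TONE

theorem okh : Ok (fun _ : Edg => (1 / 2 : ℝ)) := fun _ => ⟨by norm_num, by norm_num⟩

/-- probability of one configuration -/
theorem pr_eq (T σ : Finset Edg) (hσ : σ ⊆ T) :
    Pr (fun _ => (1 / 2 : ℝ)) T (fun F => F = σ) = (1 / 2 : ℝ) ^ T.card := by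
  unfold Pr Ex
  rw [Finset.sum_eq_single σ]
  · simp only [Finset.prod_const, ind_of, mul_one]
    rw [Finset.card_sdiff_of_subset hσ]
    have h := Finset.card_le_card hσ
    rw [show (1 - 1 / 2 : ℝ) = 1 / 2 by norm_num, ← pow_add]
    congr 1
    omega
  · intro F _ hF
    simp only [ind_not_of hF, mul_zero]
  · intro h
    exact absurd (Finset.mem_powerset.2 hσ) h

theorem a3v_local (c : ℤ × ℤ) (d k : ℕ) (F : Finset Edg) :
    A3v c d k (↑F : Set Edg) ↔ A3v c d k (↑(F ∩ (blk c k \ blk c d)) : Set Edg) := by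
  have h : ∀ u, Pool.Agent.W424.OD.Cl c d k (↑(F ∩ (blk c k \ blk c d)) : Set Edg) u =
      Pool.Agent.W424.OD.Cl c d k (↑F : Set Edg) u := by
    intro u
    unfold Pool.Agent.W424.OD.Cl
    have h1 : (↑(F ∩ (blk c k \ blk c d)) : Set Edg) ∩ AE c d k = (↑F : Set Edg) ∩ AE c d k := by
      unfold AE
      rw [Finset.coe_inter, Set.inter_assoc, Set.inter_self]
    rw [h1]
  unfold A3v
  simp only [h]

theorem card_blk (c : ℤ × ℤ) : (blk c 1).card ≤ 18 := by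
  unfold blk RE
  refine (Finset.card_filter_le _ _).trans ?_
  rw [Finset.card_product, Finset.card_product, Int.card_Icc, Int.card_Icc]
  have h1 : (c.1 + (1 : ℕ) + 1 - (c.1 - (1 : ℕ))).toNat = 3 := by
    have : c.1 + (1 : ℕ) + 1 - (c.1 - (1 : ℕ)) = 3 := by push_cast; ring
    rw [this]; rfl
  have h2 : (c.2 + (1 : ℕ) + 1 - (c.2 - (1 : ℕ))).toNat = 3 := by
    have : c.2 + (1 : ℕ) + 1 - (c.2 - (1 : ℕ)) = 3 := by push_cast; ring
    rw [this]; rfl
  rw [h1, h2]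
  simp

theorem mem_RE {a b c d : ℤ} {e : Edg} : e ∈ RE a b c d ↔
    (a ≤ e.1 ∧ e.1 ≤ b) ∧ (c ≤ e.2.1 ∧ e.2.1 ≤ d) ∧
      (if e.2.2 then e.1 < b else e.2.1 < d) := by
  unfold RE
  rw [Finset.mem_filter, Finset.mem_product, Finset.mem_product, Finset.mem_Icc, Finset.mem_Icc]
  simp only [Finset.mem_univ, and_true, and_assoc]

theorem re_mono {a b c d a' b' c' d' : ℤ} (h1 : a' ≤ a) (h2 : b ≤ b') (h3 : c' ≤ c)
    (h4 : d ≤ d') : RE a b c d ⊆ RE a' b' c' d' := by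
  intro e he
  rw [mem_RE] at he ⊢
  obtain ⟨⟨k1, k2⟩, ⟨k3, k4⟩, k5⟩ := he
  refine ⟨⟨by omega, by omega⟩, ⟨by omega, by omega⟩, ?_⟩
  split_ifs at k5 ⊢ with h
  · omega
  · omega

theorem blk_mono (c : ℤ × ℤ) {r s : ℕ} (h : r ≤ s) : blk c r ⊆ blk c s := by
  unfold blk
  have h' : (r : ℤ) ≤ s := by exact_mod_cast h
  exact re_mono (by omega) (by omega) (by omega) (by omega)

theorem re_sub {n : ℕ} {c : ℤ × ℤ} (hc : c ∈ Ctr n) : RE 0 n 0 n ⊆ blk c n := by
  unfold Ctr at hc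
  rw [Finset.mem_filter] at hc
  obtain ⟨-, h1, h2⟩ := hc
  have h3 := abs_le.1 (show |2 * c.1 - n| ≤ (n : ℤ) by
    have := abs_nonneg (2 * c.1 - (n : ℤ)); omega)
  have h4 := abs_le.1 (show |2 * c.2 - n| ≤ (n : ℤ) by
    have := abs_nonneg (2 * c.2 - (n : ℤ)); omega)
  unfold blk
  exact re_mono (by omega) (by omega) (by omega) (by omega)

theorem pr_closed (U D : Finset Edg) (hD : D ⊆ U) :
    Pr (fun _ => (1 / 2 : ℝ)) U (fun F => ∀ e ∈ D, e ∉ F) = (1 / 2 : ℝ) ^ D.card := by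
  rw [Pr_local hD (A := fun F => ∀ e ∈ D, e ∉ F) (fun F _ => ?_)]
  · rw [← pr_eq D ∅ (Finset.empty_subset _)]
    apply Pr_congr
    intro F hF
    constructor
    · intro h
      rw [Finset.eq_empty_iff_forall_notMem]
      intro e he
      exact h e (hF he) he
    · intro h e _ he
      rw [h] at he
      exact absurd he (Finset.notMem_empty e)
  · constructor
    · intro h e he he2
      exact h e he (Finset.mem_inter.1 he2).1
    · intro h e he he2
      exact h e he (Finset.mem_inter.2 ⟨he2, he⟩)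

end TONE

open TONE in
theorem t_ONE : S_DET → S_LOWB → S_ONE := by
  rintro hD ⟨c1, hc1, h1⟩
  refine ⟨c1 * (1 / 2) ^ 18, by positivity, ?_⟩
  intro n c hn hc
  have hn1 : 1 ≤ n := by omega
  have hnR : (0 : ℝ) < n := by exact_mod_cast (by omega : 0 < n)
  have hA := h1 c 1 n le_rfl hn1 (blk c n) (Finset.Subset.refl _)
  have hsub := blk_mono c hn1
  have hind : Pr (fun _ => (1 / 2 : ℝ)) (blk c n)
      (fun F => A3v c 1 n (↑F : Set Edg) ∧ ∀ e ∈ blk c 1, e ∉ F) =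
      Pr (fun _ => (1 / 2 : ℝ)) (blk c n) (fun F => A3v c 1 n (↑F : Set Edg)) *
        Pr (fun _ => (1 / 2 : ℝ)) (blk c n) (fun F => ∀ e ∈ blk c 1, e ∉ F) := by
    apply Pr_indep (S := blk c n \ blk c 1) (T := blk c 1) Finset.sdiff_subset hsub
      Finset.sdiff_disjoint
    · intro F _
      exact a3v_local c 1 n F
    · intro F _
      constructor
      · intro h e he he2
        exact h e he (Finset.mem_inter.1 he2).1
      · intro h e he he2
        exact h e he (Finset.mem_inter.2 ⟨he2, he⟩)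
  have hup : Pr (fun _ => (1 / 2 : ℝ)) (blk c n)
      (fun F => A3v c 1 n (↑F : Set Edg) ∧ ∀ e ∈ blk c 1, e ∉ F) ≤
      Pr (fun _ => (1 / 2 : ℝ)) (blk c n)
        (fun F => ∃ w ∈ bdB c 1, E n w (F ∩ RE 0 n 0 n)) := by
    refine Pr_mono okh fun F _ h => ?_
    exact hD n c F hn hc h.1 h.2
  have hloc : Pr (fun _ => (1 / 2 : ℝ)) (blk c n)
        (fun F => ∃ w ∈ bdB c 1, E n w (F ∩ RE 0 n 0 n)) =
      Pr (fun _ => (1 / 2 : ℝ)) (RE 0 n 0 n) (fun F => ∃ w ∈ bdB c 1, E n w F) := by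
    rw [Pr_local (re_sub hc) (A := fun F => ∃ w ∈ bdB c 1, E n w (F ∩ RE 0 n 0 n))
      (fun F _ => by rw [Finset.inter_assoc, Finset.inter_self])]
    apply Pr_congr
    intro F hF
    rw [Finset.inter_eq_left.mpr hF]
  rw [hind, pr_closed _ _ hsub, hloc] at hup
  refine le_trans ?_ hup
  have h2 : ((1 : ℕ) / (n : ℝ)) ^ (2 / 3 : ℝ) = (n : ℝ) ^ (-(2 / 3 : ℝ)) := by
    rw [Nat.cast_one, one_div, Real.inv_rpow hnR.le, Real.rpow_neg hnR.le]
  rw [h2] at hA
  have h3 : (1 / 2 : ℝ) ^ 18 ≤ (1 / 2 : ℝ) ^ (blk c 1).card :=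
    pow_le_pow_of_le_one (by norm_num) (by norm_num) (card_blk c)
  calc c1 * (1 / 2) ^ 18 * (n : ℝ) ^ (-(2 / 3 : ℝ))
      = (c1 * (n : ℝ) ^ (-(2 / 3 : ℝ))) * (1 / 2) ^ 18 := by ring
    _ ≤ _ := mul_le_mul hA h3 (by positivity) (Pr_nonneg okh _ _)

end Pool.Agent.W801.AV
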