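import Pool.Agent.W801.AV.Stm

/-!
# AV-SEC: the second moment sum
-/

set_option autoImplicit false

namespace Pool.Agent.W801.AV
open H974 H12S Finset H389NS H984P H984N H342P
open Pool.Agent.W424.OD

namespace TSEC

/-- `ph k = max(1, k) ^ (-1/3)` -/
noncomputable def ph (k : ℕ) : ℝ := ((max 1 k : ℕ) : ℝ) ^ (-(1 / 3 : ℝ))

theorem ph_nonneg (k : ℕ) : 0 ≤ ph k := by unfold ph; positivity

theorem sum_ph (n : ℕ) :
    ∑ k ∈ Finset.range (n + 1), ph k ≤ 1 + (3 / 2) * (n : ℝ) ^ (2 / 3 : ℝ) := by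
  induction n with
  | zero =>
    rw [zero_add, Finset.sum_range_one]
    have h1 : ph 0 = 1 := by unfold ph; simp
    have h2 : (0 : ℝ) ≤ (3 / 2) * ((0 : ℕ) : ℝ) ^ (2 / 3 : ℝ) := by positivity
    linarith
  | succ n ih =>
    rw [Finset.sum_range_succ]
    have hstep : (3 / 2) * (n : ℝ) ^ (2 / 3 : ℝ) + ph (n + 1) ≤
        (3 / 2) * ((n + 1 : ℕ) : ℝ) ^ (2 / 3 : ℝ) := by
      have hm : ((max 1 (n + 1) : ℕ) : ℝ) = (n : ℝ) + 1 := by
        rw [max_eq_right (by omega)]; push_cast; ring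
      have hpos : (0 : ℝ) < (n : ℝ) + 1 := by positivity
      have ham := Real.geom_mean_le_arith_mean2_weighted (w₁ := 2 / 3) (w₂ := 1 / 3)
        (p₁ := (n : ℝ)) (p₂ := (n : ℝ) + 1) (by norm_num) (by norm_num) (by positivity)
        (by positivity) (by norm_num)
      unfold ph
      rw [hm]
      push_cast
      set t := ((n : ℝ) + 1) ^ (1 / 3 : ℝ) with ht
      have ht0 : 0 < t := by positivity
      have e1 : ((n : ℝ) + 1) ^ (-(1 / 3 : ℝ)) = t⁻¹ := Real.rpow_neg hpos.le _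
      have e2 : ((n : ℝ) + 1) ^ (2 / 3 : ℝ) = ((n : ℝ) + 1) * t⁻¹ := by
        rw [← e1]
        nth_rewrite 2 [← Real.rpow_one ((n : ℝ) + 1)]
        rw [← Real.rpow_add hpos]
        norm_num
      rw [e1, e2]
      have h3 : (n : ℝ) ^ (2 / 3 : ℝ) ≤ ((n : ℝ) + 1 / 3) * t⁻¹ := by
        rw [← div_eq_mul_inv, le_div_iff₀ ht0]
        linarith
      nlinarith [inv_pos.mpr ht0]
    linarith

theorem sum_one (n : ℕ) (a : ℤ) (ha : a ∈ Finset.Icc (0 : ℤ) n) :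
    ∑ x ∈ Finset.Icc (0 : ℤ) n, ph (a - x).natAbs ≤ 2 * ∑ k ∈ Finset.range (n + 1), ph k := by
  rw [Finset.mem_Icc] at ha
  rw [← Finset.sum_filter_add_sum_filter_not (Finset.Icc (0 : ℤ) n) (fun x => x ≤ a)]
  have key : ∀ T : Finset ℤ, T ⊆ Finset.Icc (0 : ℤ) n →
      Set.InjOn (fun x : ℤ => (a - x).natAbs) T →
      ∑ x ∈ T, ph (a - x).natAbs ≤ ∑ k ∈ Finset.range (n + 1), ph k := by
    intro T hT hinj
    rw [← Finset.sum_image (f := ph) (g := fun x : ℤ => (a - x).natAbs) hinj]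
    refine Finset.sum_le_sum_of_subset_of_nonneg ?_ (fun _ _ _ => ph_nonneg _)
    intro k hk
    rw [Finset.mem_image] at hk
    obtain ⟨x, hx, rfl⟩ := hk
    have := Finset.mem_Icc.mp (hT hx)
    rw [Finset.mem_range]
    omega
  have i1 : Set.InjOn (fun x : ℤ => (a - x).natAbs)
      ((Finset.Icc (0 : ℤ) n).filter (fun x => x ≤ a)) := by
    intro x hx y hy hxy
    simp only [Finset.coe_filter, Finset.mem_Icc, Set.mem_ofPred_eq] at hx hy hxy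
    omega
  have i2 : Set.InjOn (fun x : ℤ => (a - x).natAbs)
      ((Finset.Icc (0 : ℤ) n).filter (fun x => ¬ x ≤ a)) := by
    intro x hx y hy hxy
    simp only [Finset.coe_filter, Finset.mem_Icc, Set.mem_ofPred_eq] at hx hy hxy
    omega
  have h1 := key _ (Finset.filter_subset (fun x => x ≤ a) _) i1
  have h2 := key _ (Finset.filter_subset (fun x => ¬ x ≤ a) _) i2
  linarith

theorem sum_one_le (n : ℕ) (hn : 1 ≤ n) (a : ℤ) (ha : a ∈ Finset.Icc (0 : ℤ) n) :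
    ∑ x ∈ Finset.Icc (0 : ℤ) n, ph (a - x).natAbs ≤ 6 * (n : ℝ) ^ (2 / 3 : ℝ) := by
  have h1 := sum_one n a ha
  have h2 := sum_ph n
  have hn' : (1 : ℝ) ≤ n := by exact_mod_cast hn
  have h3 : 1 ≤ (n : ℝ) ^ (2 / 3 : ℝ) := Real.one_le_rpow hn' (by norm_num)
  linarith

theorem ker_le (x y : ℤ) (r : ℕ) (hr : 1 ≤ r) (h : (r : ℤ) = max |x| |y|) :
    (r : ℝ) ^ (-(2 / 3 : ℝ)) ≤ ph x.natAbs * ph y.natAbs := by
  have hr0 : (0 : ℝ) < r := by exact_mod_cast hr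
  have e : (r : ℝ) ^ (-(2 / 3 : ℝ)) = (r : ℝ) ^ (-(1 / 3 : ℝ)) * (r : ℝ) ^ (-(1 / 3 : ℝ)) := by
    rw [← Real.rpow_add hr0]; norm_num
  have hx : |x| ≤ r := h ▸ le_max_left _ _
  have hy : |y| ≤ r := h ▸ le_max_right _ _
  have hx' : x.natAbs ≤ r := by
    have := Int.natCast_natAbs x
    omega
  have hy' : y.natAbs ≤ r := by
    have := Int.natCast_natAbs y
    omega
  have aux : ∀ k : ℕ, k ≤ r → (r : ℝ) ^ (-(1 / 3 : ℝ)) ≤ ph k := by
    intro k hk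
    unfold ph
    have h1 : max 1 k ≤ r := max_le hr hk
    have h2 : (0 : ℝ) < ((max 1 k : ℕ) : ℝ) := by
      exact_mod_cast lt_of_lt_of_le Nat.one_pos (le_max_left 1 k)
    exact Real.rpow_le_rpow_of_nonpos h2 (by exact_mod_cast h1) (by norm_num)
  rw [e]
  exact mul_le_mul (aux _ hx') (aux _ hy') (by positivity) (ph_nonneg _)

/-- the abstract second moment bound -/
theorem abs_sum (n : ℕ) (hn : 1 ≤ n) (S : Finset (ℤ × ℤ))
    (hS : S ⊆ Finset.Icc (0 : ℤ) n ×ˢ Finset.Icc (0 : ℤ) n) (C : ℝ) (hC : 0 < C)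
    (f : (ℤ × ℤ) → (ℤ × ℤ) → ℝ) (h1 : ∀ v w, f v w ≤ 1)
    (h2 : ∀ (r : ℕ), ∀ v ∈ S, ∀ w ∈ S, 1 ≤ r → (r : ℤ) = max |v.1 - w.1| |v.2 - w.2| →
      f v w ≤ C * (r : ℝ) ^ (-(2 / 3 : ℝ)) * (n : ℝ) ^ (-(2 / 3 : ℝ))) :
    ∑ v ∈ S, ∑ w ∈ S, f v w ≤ 4 * (1 + 36 * C) * ((n : ℝ) ^ (4 / 3 : ℝ)) ^ 2 := by
  classical
  have hn' : (1 : ℝ) ≤ n := by exact_mod_cast hn
  have hn0 : (0 : ℝ) < n := by linarith
  set B := Finset.Icc (0 : ℤ) n ×ˢ Finset.Icc (0 : ℤ) n with hB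
  set K : ℝ := C * (n : ℝ) ^ (-(2 / 3 : ℝ)) with hK
  have hK0 : 0 < K := by positivity
  have hpt : ∀ v ∈ S, ∀ w ∈ S, f v w ≤ (if w = v then 1 else 0) +
      K * (ph (v.1 - w.1).natAbs * ph (v.2 - w.2).natAbs) := by
    intro v hv w hw
    have hnn : 0 ≤ K * (ph (v.1 - w.1).natAbs * ph (v.2 - w.2).natAbs) :=
      mul_nonneg hK0.le (mul_nonneg (ph_nonneg _) (ph_nonneg _))
    by_cases hvw : w = v
    · rw [if_pos hvw]
      have := h1 v w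
      linarith
    · rw [if_neg hvw, zero_add]
      obtain ⟨r, hr⟩ : ∃ r : ℕ, (r : ℤ) = max |v.1 - w.1| |v.2 - w.2| :=
        ⟨(max |v.1 - w.1| |v.2 - w.2|).toNat, by
          rw [Int.toNat_of_nonneg]; exact le_max_of_le_left (abs_nonneg _)⟩
      have hr1 : 1 ≤ r := by
        by_contra hc
        have hr0 : r = 0 := by omega
        rw [hr0] at hr
        have a1 : |v.1 - w.1| ≤ 0 := by
          have := le_max_left |v.1 - w.1| |v.2 - w.2|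
          rw [← hr] at this; simpa using this
        have a2 : |v.2 - w.2| ≤ 0 := by
          have := le_max_right |v.1 - w.1| |v.2 - w.2|
          rw [← hr] at this; simpa using this
        apply hvw
        have b1 := abs_nonpos_iff.mp a1
        have b2 := abs_nonpos_iff.mp a2
        ext
        · omega
        · omega
      have hf := h2 r v hv w hw hr1 hr
      have hk := ker_le (v.1 - w.1) (v.2 - w.2) r hr1 hr
      calc f v w ≤ C * (r : ℝ) ^ (-(2 / 3 : ℝ)) * (n : ℝ) ^ (-(2 / 3 : ℝ)) := hf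
        _ = K * (r : ℝ) ^ (-(2 / 3 : ℝ)) := by rw [hK]; ring
        _ ≤ _ := mul_le_mul_of_nonneg_left hk hK0.le
  have hin : ∀ v ∈ S, ∑ w ∈ S, f v w ≤ (1 + 36 * C) * (n : ℝ) ^ (2 / 3 : ℝ) := by
    intro v hv
    have hvB := hS hv
    rw [hB, Finset.mem_product] at hvB
    have s1 : ∑ w ∈ S, f v w ≤ ∑ w ∈ S, ((if w = v then (1 : ℝ) else 0) +
        K * (ph (v.1 - w.1).natAbs * ph (v.2 - w.2).natAbs)) :=
      Finset.sum_le_sum (fun w hw => hpt v hv w hw)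
    rw [Finset.sum_add_distrib, Finset.sum_ite_eq' S v (fun _ => (1 : ℝ)), if_pos hv,
      ← Finset.mul_sum] at s1
    have s2 : ∑ w ∈ S, ph (v.1 - w.1).natAbs * ph (v.2 - w.2).natAbs ≤
        ∑ w ∈ B, ph (v.1 - w.1).natAbs * ph (v.2 - w.2).natAbs :=
      Finset.sum_le_sum_of_subset_of_nonneg hS
        (fun _ _ _ => mul_nonneg (ph_nonneg _) (ph_nonneg _))
    have s3 : ∑ w ∈ B, ph (v.1 - w.1).natAbs * ph (v.2 - w.2).natAbs =
        (∑ x ∈ Finset.Icc (0 : ℤ) n, ph (v.1 - x).natAbs) *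
          ∑ y ∈ Finset.Icc (0 : ℤ) n, ph (v.2 - y).natAbs := by
      rw [hB, Finset.sum_product, Finset.sum_mul_sum]
    have s4 := sum_one_le n hn v.1 hvB.1
    have s5 := sum_one_le n hn v.2 hvB.2
    have p1 : 0 ≤ ∑ y ∈ Finset.Icc (0 : ℤ) n, ph (v.2 - y).natAbs :=
      Finset.sum_nonneg (fun _ _ => ph_nonneg _)
    have s6 : ∑ w ∈ S, ph (v.1 - w.1).natAbs * ph (v.2 - w.2).natAbs ≤
        (6 * (n : ℝ) ^ (2 / 3 : ℝ)) * (6 * (n : ℝ) ^ (2 / 3 : ℝ)) := by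
      refine s2.trans ?_
      rw [s3]
      exact mul_le_mul s4 s5 p1 (by positivity)
    have s7 : K * ((6 * (n : ℝ) ^ (2 / 3 : ℝ)) * (6 * (n : ℝ) ^ (2 / 3 : ℝ))) =
        36 * C * (n : ℝ) ^ (2 / 3 : ℝ) := by
      have e : (n : ℝ) ^ (-(2 / 3 : ℝ)) * (n : ℝ) ^ (2 / 3 : ℝ) = 1 := by
        rw [← Real.rpow_add hn0]; simp
      calc _ = 36 * C * (n : ℝ) ^ (2 / 3 : ℝ) *
            ((n : ℝ) ^ (-(2 / 3 : ℝ)) * (n : ℝ) ^ (2 / 3 : ℝ)) := by rw [hK]; ring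
        _ = _ := by rw [e, mul_one]
    have s8 := mul_le_mul_of_nonneg_left s6 hK0.le
    rw [s7] at s8
    have h3 : 1 ≤ (n : ℝ) ^ (2 / 3 : ℝ) := Real.one_le_rpow hn' (by norm_num)
    linarith
  have hcard : (S.card : ℝ) ≤ 4 * (n : ℝ) ^ 2 := by
    have c1 : S.card ≤ (n + 1) * (n + 1) := by
      have := Finset.card_le_card hS
      rw [hB, Finset.card_product, Int.card_Icc] at this
      simpa using this
    have c2 : (S.card : ℝ) ≤ ((n : ℝ) + 1) * ((n : ℝ) + 1) := by exact_mod_cast c1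
    nlinarith
  have htot : ∑ v ∈ S, ∑ w ∈ S, f v w ≤ S.card * ((1 + 36 * C) * (n : ℝ) ^ (2 / 3 : ℝ)) := by
    have := Finset.sum_le_card_nsmul S (fun v => ∑ w ∈ S, f v w) _ hin
    rwa [nsmul_eq_mul] at this
  have hfin : (n : ℝ) ^ 2 * (n : ℝ) ^ (2 / 3 : ℝ) = ((n : ℝ) ^ (4 / 3 : ℝ)) ^ 2 := by
    rw [← Real.rpow_natCast, ← Real.rpow_natCast, ← Real.rpow_mul hn0.le, ← Real.rpow_add hn0]
    norm_num
  calc _ ≤ S.card * ((1 + 36 * C) * (n : ℝ) ^ (2 / 3 : ℝ)) := htot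
    _ ≤ (4 * (n : ℝ) ^ 2) * ((1 + 36 * C) * (n : ℝ) ^ (2 / 3 : ℝ)) :=
        mul_le_mul_of_nonneg_right hcard (by positivity)
    _ = 4 * (1 + 36 * C) * ((n : ℝ) ^ 2 * (n : ℝ) ^ (2 / 3 : ℝ)) := by ring
    _ = _ := by rw [hfin]

end TSEC

theorem t_SEC : S_TWO → S_SEC := by
  rintro ⟨C, hC, h2⟩
  refine ⟨4 * (1 + 36 * C), by positivity, ?_⟩
  intro n hn
  refine TSEC.abs_sum n (by omega) (Ctr n) (Finset.filter_subset _ _) C hC
    (fun v w => Pr (fun _ => (1 / 2 : ℝ)) (RE 0 n 0 n) (fun F => E n v F ∧ E n w F)) ?_ ?_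
  · intro v w
    exact Pr_le_one (fun _ => ⟨by norm_num, by norm_num⟩) _ _
  · intro r v hv w hw hr1 hr
    exact h2 n r v w hn hv hw hr1 hr

end Pool.Agent.W801.AV
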