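import Pool.Agent.W801.AV.Stm
import Pool.Agent.H12R2.Sep.WinHalf

/-! # AV-SML: all clusters are small with positive probability -/

set_option autoImplicit false

namespace Pool.Agent.W801.AV
open H974 H12S Finset H389NS H984P H984N H342P
open Pool.Agent.W424.OD

namespace TSML

/-- Harris' inequality for finitely many decreasing events. -/
theorem multi {p : Edg → ℝ} (hp : Ok p) {S : Finset Edg} (T : Finset (ℕ × ℕ))
    (A : ℕ × ℕ → Finset Edg → Prop) (κ : ℝ) (h0 : 0 ≤ κ)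
    (hA : ∀ i, IncrE S (A i)) (hP : ∀ i, κ ≤ Pr p S (fun F => ¬ A i F)) :
    κ ^ T.card ≤ Pr p S (fun F => ¬ ∃ i ∈ T, A i F) := by
  classical
  induction T using Finset.induction_on with
  | empty =>
    rw [Pr_true S (fun F _ h => by
      obtain ⟨i, hi, _⟩ := h
      exact absurd hi (Finset.notMem_empty i))]
    simp
  | insert a T ha ih =>
    rw [Finset.card_insert_of_notMem ha]
    have h1 : IncrE S (fun F => ∃ i ∈ T, A i F) :=
      fun F G h1 h2 ⟨i, hi, h⟩ => ⟨i, hi, hA i F G h1 h2 h⟩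
    have h2 := Pr_harris_dd hp h1 (hA a)
    have h3 := hP a
    rw [Pr_not] at h3 ih
    have h4 : 0 ≤ 1 - Pr p S (fun F => ∃ i ∈ T, A i F) := by
      linarith [Pr_le_one hp S (fun F => ∃ i ∈ T, A i F)]
    calc κ ^ (T.card + 1) = κ ^ T.card * κ := pow_succ _ _
      _ ≤ (1 - Pr p S (fun F => ∃ i ∈ T, A i F)) * (1 - Pr p S (A a)) :=
        mul_le_mul ih h3 h0 h4
      _ ≤ _ := h2.trans (Pr_mono hp (by
        rintro F _ ⟨k1, k2⟩ ⟨i, hi, k3⟩
        rcases Finset.mem_insert.mp hi with rfl | hi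
        · exact k2 k3
        · exact k1 ⟨i, hi, k3⟩))

theorem coord {m n : ℕ} (hm : 4 ≤ m) (h1 : n ≤ 32 * m + 31) {a : ℤ} (ha : 0 ≤ a) (ha2 : a ≤ n) :
    ∃ i : ℕ, i < 41 ∧ (m : ℤ) * i ≤ a ∧ a < (m : ℤ) * i + m := by
  have hm0 : (0 : ℤ) < m := by omega
  refine ⟨(a / m).toNat, ?_, ?_, ?_⟩
  · have k1 : 0 ≤ a / (m : ℤ) := Int.ediv_nonneg ha hm0.le
    have k2 : a / (m : ℤ) < 41 := by
      apply Int.ediv_lt_of_lt_mul hm0
      omega
    omega
  · have k1 : 0 ≤ a / (m : ℤ) := Int.ediv_nonneg ha hm0.le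
    rw [Int.toNat_of_nonneg k1]
    exact Int.mul_ediv_self_le hm0.ne'
  · have k1 : 0 ≤ a / (m : ℤ) := Int.ediv_nonneg ha hm0.le
    rw [Int.toNat_of_nonneg k1]
    exact Int.lt_mul_ediv_self_add hm0

theorem small {m n : ℕ} (hm : 4 ≤ m) (h1 : n ≤ 32 * m + 31) (h2 : 32 * m ≤ n) {F : Finset Edg}
    (h : ¬ ∃ i ∈ (Finset.range 41 ×ˢ Finset.range 41 : Finset (ℕ × ℕ)),
      Crs ((m : ℤ) * i.1) ((m : ℤ) * i.2) m (3 * m) (↑F : Set Edg)) : Sml n ∅ F := by
  intro a ha _ b hb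
  by_contra hc
  rw [not_lt] at hc
  rw [Plain.mem_cluster] at hb
  unfold Plain.box at ha
  rw [Finset.mem_product, Finset.mem_Icc, Finset.mem_Icc] at ha
  obtain ⟨⟨a1, a2⟩, a3, a4⟩ := ha
  obtain ⟨i, i1, i2, i3⟩ := coord hm h1 a1 a2
  obtain ⟨j, j1, j2, j3⟩ := coord hm h1 a3 a4
  apply h
  refine ⟨(i, j), by simp [i1, j1], a, b, ?_, ?_, hb⟩
  · unfold inR
    dsimp only
    omega
  · by_contra hd
    simp only [not_or, not_le] at hd
    obtain ⟨d1, d2, d3, d4⟩ := hd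
    push_cast at d1 d2 d3 d4
    unfold Plain.sqDist at hc
    have e1 : |a.1 - b.1| < 4 * (m : ℤ) := by rw [abs_lt]; constructor <;> linarith
    have e2 : |a.2 - b.2| < 4 * (m : ℤ) := by rw [abs_lt]; constructor <;> linarith
    have f1 : (a.1 - b.1) ^ 2 < (4 * (m : ℤ)) ^ 2 := by
      rw [← sq_abs (a.1 - b.1)]
      exact pow_lt_pow_left₀ e1 (abs_nonneg _) (by norm_num)
    have f2 : (a.2 - b.2) ^ 2 < (4 * (m : ℤ)) ^ 2 := by
      rw [← sq_abs (a.2 - b.2)]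
      exact pow_lt_pow_left₀ e2 (abs_nonneg _) (by norm_num)
    have g : (32 * (m : ℤ)) ^ 2 ≤ (n : ℤ) ^ 2 := by
      have : (32 * (m : ℤ)) ≤ n := by exact_mod_cast h2
      exact pow_le_pow_left₀ (by positivity) this 2
    nlinarith [sq_nonneg (m : ℤ)]

end TSML

theorem t_SML : S_SML := by
  obtain ⟨κ, hκ, hw⟩ := win_half
  refine ⟨(κ ^ 4) ^ (Finset.range 41 ×ˢ Finset.range 41 : Finset (ℕ × ℕ)).card, 128,
    by positivity, ?_⟩
  intro n hn
  set m := n / 32 with hmdef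
  have hm : 4 ≤ m := by omega
  have h1 : n ≤ 32 * m + 31 := by omega
  have h2 : 32 * m ≤ n := by omega
  have ok : Ok (fun _ : Edg => (1 / 2 : ℝ)) := okq (by norm_num) (by norm_num)
  refine (TSML.multi ok (S := RE 0 n 0 n) (Finset.range 41 ×ˢ Finset.range 41)
    (fun i F => Crs ((m : ℤ) * i.1) ((m : ℤ) * i.2) m (3 * m) (↑F : Set Edg)) (κ ^ 4)
    (by positivity) ?_ ?_).trans ?_
  · intro i F G hFG _ hF
    exact BS_crs_mono (by exact_mod_cast hFG) hF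
  · intro i
    exact win_blk_pri (hw (2 * m)) (by omega) le_rfl _ _ _
  · apply Pr_mono ok
    intro F _ hF
    exact TSML.small hm h1 h2 hF

end Pool.Agent.W801.AV

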