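import Pool.Agent.W801.AV.T_DET
import Pool.Agent.W801.AV.T_ONE
import Pool.Agent.W801.AV.T_FRE
import Pool.Agent.W801.AV.T_SML
import Pool.Agent.W801.AV.T_TWO
import Pool.Agent.W801.AV.T_SEC
import Pool.Agent.W801.AV.T_FIR
import Pool.Agent.W801.AV.T_LRG
import Pool.Agent.W801.AV.T_FIN
import Pool.Agent.W801.RS.All

/-!
# Project AV: assembly
-/

set_option autoImplicit false

namespace Pool.Agent.W801.AV

theorem a_LOWB : S_LOWB := Pool.Agent.W801.RS.a_LOWB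
theorem a_ONE : S_ONE := t_ONE t_DET a_LOWB
theorem a_TWO : S_TWO := t_TWO Pool.Agent.W424.KI.u3
theorem a_SEC : S_SEC := t_SEC a_TWO
theorem a_FIR : S_FIR := t_FIR a_ONE t_FRE t_SML
theorem a_FIN : S_FIN := t_FIN a_FIR a_SEC t_LRG

end Pool.Agent.W801.AV
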