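import Pool.Agent.W424.OD.Cnt
import Pool.Agent.H12R2.Sep.BlkSum

/-!
# Project AV: the largest cluster has at least `c n ^ (4/3)` accessible vertices with positive
probability.  Statements.
-/

set_option autoImplicit false

namespace Pool.Agent.W801.AV
open H974 H12S Finset H389NS H984P H984N H342P
open Pool.Agent.W424.OD

/-- The centre part of `Λ_n`: the vertices `v` with `|2 v_i - n| ≤ n / 8`. -/
noncomputable def Ctr (n : ℕ) : Finset (ℤ × ℤ) :=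
  (Plain.box n).filter (fun v => 8 * |2 * v.1 - n| ≤ n ∧ 8 * |2 * v.2 - n| ≤ n)

/-- `w` is accessible in its own cluster, and its cluster touches the boundary of `Λ_n`. -/
def E (n : ℕ) (w : ℤ × ℤ) (F : Finset Edg) : Prop :=
  Accessible n F w w ∧ ∃ z ∈ Plain.cluster F w, z.1 = 0 ∨ z.1 = n ∨ z.2 = 0 ∨ z.2 = n

/-- All the clusters disjoint from `W` have diameter less than `n / 4`. -/
def Sml (n : ℕ) (W : Set (ℤ × ℤ)) (F : Finset Edg) : Prop :=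
  ∀ a ∈ Plain.box n, a ∉ W → ∀ b ∈ Plain.cluster F a, 16 * Plain.sqDist a b < (n : ℤ) ^ 2

/-- lower bound of the three-arm probabilities (proved: RSA.a_LOWB) -/
def S_LOWB : Prop := ∃ c : ℝ, 0 < c ∧ ∀ (a : ℤ × ℤ) (d k : ℕ), 1 ≤ d → d ≤ k →
  ∀ S : Finset Edg, blk a k ⊆ S →
    c * ((d : ℝ) / k) ^ (2 / 3 : ℝ) ≤ PQ (1 / 2) S (fun F => A3v a d k (↑F : Set Edg))

/-- AV-DET: three arms from the ring of radius 1 around `c` to distance `n` and closed edges inside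
of the ring: some vertex of the ring is accessible in `Λ_n`. -/
def S_DET : Prop := ∀ (n : ℕ) (c : ℤ × ℤ) (F : Finset Edg), 16 ≤ n → c ∈ Ctr n →
  A3v c 1 n (↑F : Set Edg) → (∀ e ∈ blk c 1, e ∉ F) →
    ∃ w ∈ bdB c 1, E n w (F ∩ RE 0 n 0 n)

/-- AV-ONE: one-point lower bound. -/
def S_ONE : Prop := ∃ c0 : ℝ, 0 < c0 ∧ ∀ (n : ℕ) (c : ℤ × ℤ), 16 ≤ n → c ∈ Ctr n →
  c0 * (n : ℝ) ^ (-(2 / 3 : ℝ)) ≤
    Pr (fun _ => (1 / 2 : ℝ)) (RE 0 n 0 n) (fun F => ∃ w ∈ bdB c 1, E n w F)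

/-- AV-FRE: given the cluster of `w`, the rest is fresh, and being small is a decreasing event. -/
def S_FRE : Prop := ∀ (n : ℕ) (w : ℤ × ℤ), w ∈ Plain.box n →
  Pr (fun _ => (1 / 2 : ℝ)) (RE 0 n 0 n) (E n w) *
      Pr (fun _ => (1 / 2 : ℝ)) (RE 0 n 0 n) (Sml n ∅) ≤
    Pr (fun _ => (1 / 2 : ℝ)) (RE 0 n 0 n) (fun F => E n w F ∧ Sml n (Plain.cluster F w) F)

/-- AV-SML: all clusters are small with positive probability. -/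
def S_SML : Prop := ∃ (q : ℝ) (n0 : ℕ), 0 < q ∧ ∀ n : ℕ, n0 ≤ n →
  q ≤ Pr (fun _ => (1 / 2 : ℝ)) (RE 0 n 0 n) (Sml n ∅)

/-- AV-TWO: two-point upper bound. -/
def S_TWO : Prop := ∃ C : ℝ, 0 < C ∧ ∀ (n r : ℕ) (v w : ℤ × ℤ), 16 ≤ n → v ∈ Ctr n → w ∈ Ctr n →
  1 ≤ r → (r : ℤ) = max |v.1 - w.1| |v.2 - w.2| →
    Pr (fun _ => (1 / 2 : ℝ)) (RE 0 n 0 n) (fun F => E n v F ∧ E n w F) ≤
      C * (r : ℝ) ^ (-(2 / 3 : ℝ)) * (n : ℝ) ^ (-(2 / 3 : ℝ))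

/-- AV-SEC: second moment. -/
def S_SEC : Prop := ∃ C : ℝ, 0 < C ∧ ∀ n : ℕ, 16 ≤ n →
  ∑ v ∈ Ctr n, ∑ w ∈ Ctr n,
    Pr (fun _ => (1 / 2 : ℝ)) (RE 0 n 0 n) (fun F => E n v F ∧ E n w F) ≤
      C * ((n : ℝ) ^ (4 / 3 : ℝ)) ^ 2

/-- AV-FIR: first moment. -/
def S_FIR : Prop := ∃ (c : ℝ) (n0 : ℕ), 0 < c ∧ ∀ n : ℕ, n0 ≤ n →
  c * (n : ℝ) ^ (4 / 3 : ℝ) ≤ ∑ w ∈ Ctr n,
    Pr (fun _ => (1 / 2 : ℝ)) (RE 0 n 0 n) (fun F => E n w F ∧ Sml n (Plain.cluster F w) F)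

/-- AV-LRG: on the event, every largest cluster is the cluster of `w`. -/
def S_LRG : Prop := ∀ (n : ℕ) (w : ℤ × ℤ) (F : Finset Edg), 16 ≤ n → w ∈ Ctr n → F ⊆ RE 0 n 0 n →
  E n w F → Sml n (Plain.cluster F w) F → ∀ v, Plain.Largest n F v →
    v ∈ Plain.cluster F w ∧ w ∈ accessible n F v

/-- AV-FIN: the result. -/
def S_FIN : Prop := ∃ (c p : ℝ) (n0 : ℕ), 0 < c ∧ 0 < p ∧ ∀ n : ℕ, n0 ≤ n →
  p ≤ Plain.prob n (fun F => ∀ v, Plain.Largest n F v →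
    c * (n : ℝ) ^ (4 / 3 : ℝ) ≤ ((accessible n F v).card : ℝ))

end Pool.Agent.W801.AV
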