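import Pool.Agent.W801.AV.Stm

set_option autoImplicit false

namespace Pool.Agent.W801.AV
open H974 H12S Finset H389NS H984P H984N H342P
open Pool.Agent.W424.OD

/-- one-point upper bound -/
def S_ONU : Prop := ∃ C : ℝ, 0 < C ∧ ∀ (n : ℕ) (v : ℤ × ℤ), 16 ≤ n → v ∈ Ctr n →
  Pr (fun _ => (1 / 2 : ℝ)) (RE 0 n 0 n) (E n v) ≤ C * (n : ℝ) ^ (-(2 / 3 : ℝ))

/-- local second moment -/
def S_LOC : Prop := ∃ C : ℝ, 0 < C ∧ ∀ n m : ℕ, 16 ≤ n → 1 ≤ m → m ≤ n →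
  ∑ v ∈ Ctr n, ∑ w ∈ (Ctr n).filter (fun w => |v.1 - w.1| < m ∧ |v.2 - w.2| < m),
    Pr (fun _ => (1 / 2 : ℝ)) (RE 0 n 0 n) (fun F => E n v F ∧ E n w F) ≤
      C * ((n : ℝ) ^ (4 / 3 : ℝ) * (m : ℝ) ^ (4 / 3 : ℝ))

/-- squares of side `m` -/
def S_BOX : Prop := ∃ (c p : ℝ) (n0 : ℕ), 0 < c ∧ 0 < p ∧ ∀ n : ℕ, n0 ≤ n → ∀ m : ℕ, 1 ≤ m →
  m ≤ n → p ≤ Plain.prob n (fun F => ∀ v, Plain.Largest n F v →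
    c * ((n : ℝ) / m) ^ (4 / 3 : ℝ) ≤
      (((accessible n F v).image (fun w => (w.1 / (m : ℤ), w.2 / (m : ℤ)))).card : ℝ))

end Pool.Agent.W801.AV
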