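import Pool.Agent.W801.AV.Stm

/-!
# AV-DET: three arms in the box imply an accessible vertex
-/

set_option autoImplicit false

namespace Pool.Agent.W801.AV
open H974 H12S Finset H389NS H984P H984N H342P
open Pool.Agent.W424.OD

namespace TDET

/-- last exit from a set of vertices, for a relation -/
theorem lastW {R : Vtx → Vtx → Prop} {W : Set Vtx} {u x : Vtx} (hu : u ∈ W)
    (h : Relation.ReflTransGen R u x) :
    x ∈ W ∨ ∃ w p, w ∈ W ∧ p ∉ W ∧ R w p ∧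
      Relation.ReflTransGen (fun a b => R a b ∧ a ∉ W ∧ b ∉ W) p x := by
  induction h with
  | refl => exact Or.inl hu
  | @tail b c _ hs ih =>
    by_cases hc : c ∈ W
    · exact Or.inl hc
    right
    by_cases hb : b ∈ W
    · exact ⟨b, c, hb, hc, hs, Relation.ReflTransGen.refl⟩
    · rcases ih with ih | ⟨w, p, hw, hp, hwp, hr⟩
      · exact absurd ih hb
      · exact ⟨w, p, hw, hp, hwp, Relation.ReflTransGen.tail hr ⟨hs, hb, hc⟩⟩

/-- the edges of the ring of radius one -/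
def Rg (c : Vtx) : Set Edg := {e | src e ∈ bdB c 1 ∧ tgt e ∈ bdB c 1}

theorem stepH (c1 c2 i j : ℤ) (h1 : (c1 + i, c2 + j) ∈ bdB (c1, c2) 1)
    (h2 : (c1 + i + 1, c2 + j) ∈ bdB (c1, c2) 1) :
    Reach (Rg (c1, c2)) (c1 + i, c2 + j) (c1 + i + 1, c2 + j) :=
  Adj.reach ⟨(c1 + i, c2 + j, true), ⟨h1, h2⟩, Or.inl ⟨rfl, rfl⟩⟩

theorem stepV (c1 c2 i j : ℤ) (h1 : (c1 + i, c2 + j) ∈ bdB (c1, c2) 1)
    (h2 : (c1 + i, c2 + j + 1) ∈ bdB (c1, c2) 1) :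
    Reach (Rg (c1, c2)) (c1 + i, c2 + j) (c1 + i, c2 + j + 1) :=
  Adj.reach ⟨(c1 + i, c2 + j, false), ⟨h1, h2⟩, Or.inl ⟨rfl, rfl⟩⟩

theorem inring (c1 c2 x y : ℤ) (h : (c1 - 1 ≤ x ∧ x ≤ c1 + 1) ∧ (c2 - 1 ≤ y ∧ y ≤ c2 + 1))
    (h' : x = c1 - 1 ∨ x = c1 + 1 ∨ y = c2 - 1 ∨ y = c2 + 1) : (x, y) ∈ bdB (c1, c2) 1 := by
  rw [mem_bdB_iff]
  unfold BX inR
  simp only [Nat.cast_one]
  exact ⟨h, h'⟩

theorem ring_reach (c u : Vtx) (hu : u ∈ bdB c 1) : Reach (Rg c) (c.1 + 1, c.2) u := by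
  obtain ⟨c1, c2⟩ := c
  obtain ⟨u1, u2⟩ := u
  rw [mem_bdB_iff] at hu
  unfold BX inR at hu
  simp only [Nat.cast_one] at hu
  have r1 : Reach (Rg (c1, c2)) (c1 + 1, c2) (c1 + 1, c2 + 1) := by
    have := stepV c1 c2 1 0 (inring _ _ _ _ (by omega) (by omega)) (inring _ _ _ _ (by omega) (by omega))
    simpa using this
  have r2 : Reach (Rg (c1, c2)) (c1 + 1, c2 + 1) (c1, c2 + 1) := by
    have := (stepH c1 c2 0 1 (inring _ _ _ _ (by omega) (by omega)) (inring _ _ _ _ (by omega) (by omega))).symm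
    simpa using this
  have r3 : Reach (Rg (c1, c2)) (c1, c2 + 1) (c1 - 1, c2 + 1) := by
    have := (stepH c1 c2 (-1) 1 (inring _ _ _ _ (by omega) (by omega)) (inring _ _ _ _ (by omega) (by omega))).symm
    have e1 : c1 + -1 + 1 = c1 := by ring
    have e2 : c1 + -1 = c1 - 1 := by ring
    rw [e1, e2] at this
    exact this
  have r4 : Reach (Rg (c1, c2)) (c1 - 1, c2 + 1) (c1 - 1, c2) := by
    have := (stepV c1 c2 (-1) 0 (inring _ _ _ _ (by omega) (by omega)) (inring _ _ _ _ (by omega) (by omega))).symm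
    have e2 : c1 + -1 = c1 - 1 := by ring
    have e3 : c2 + 0 = c2 := by ring
    rw [e2, e3] at this
    exact this
  have r5 : Reach (Rg (c1, c2)) (c1 - 1, c2) (c1 - 1, c2 - 1) := by
    have := (stepV c1 c2 (-1) (-1) (inring _ _ _ _ (by omega) (by omega)) (inring _ _ _ _ (by omega) (by omega))).symm
    have e1 : c2 + -1 + 1 = c2 := by ring
    have e2 : c1 + -1 = c1 - 1 := by ring
    have e3 : c2 + -1 = c2 - 1 := by ring
    rw [e1, e2, e3] at this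
    exact this
  have r6 : Reach (Rg (c1, c2)) (c1 - 1, c2 - 1) (c1, c2 - 1) := by
    have := stepH c1 c2 (-1) (-1) (inring _ _ _ _ (by omega) (by omega)) (inring _ _ _ _ (by omega) (by omega))
    have e1 : c1 + -1 + 1 = c1 := by ring
    have e2 : c1 + -1 = c1 - 1 := by ring
    have e3 : c2 + -1 = c2 - 1 := by ring
    rw [e1, e2, e3] at this
    exact this
  have r7 : Reach (Rg (c1, c2)) (c1, c2 - 1) (c1 + 1, c2 - 1) := by
    have := stepH c1 c2 0 (-1) (inring _ _ _ _ (by omega) (by omega)) (inring _ _ _ _ (by omega) (by omega))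
    have e1 : c1 + 0 = c1 := by ring
    have e3 : c2 + -1 = c2 - 1 := by ring
    rw [e1, e3] at this
    exact this
  have hcases : (u1 = c1 + 1 ∧ u2 = c2) ∨ (u1 = c1 + 1 ∧ u2 = c2 + 1) ∨ (u1 = c1 ∧ u2 = c2 + 1) ∨
      (u1 = c1 - 1 ∧ u2 = c2 + 1) ∨ (u1 = c1 - 1 ∧ u2 = c2) ∨ (u1 = c1 - 1 ∧ u2 = c2 - 1) ∨
      (u1 = c1 ∧ u2 = c2 - 1) ∨ (u1 = c1 + 1 ∧ u2 = c2 - 1) := by omega
  show Reach (Rg (c1, c2)) (c1 + 1, c2) (u1, u2)
  rcases hcases with ⟨h1, h2⟩ | ⟨h1, h2⟩ | ⟨h1, h2⟩ | ⟨h1, h2⟩ | ⟨h1, h2⟩ | ⟨h1, h2⟩ | ⟨h1, h2⟩ |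
    ⟨h1, h2⟩ <;> rw [h1, h2]
  · exact Reach.refl _ _
  · exact r1
  · exact r1.trans r2
  · exact (r1.trans r2).trans r3
  · exact ((r1.trans r2).trans r3).trans r4
  · exact (((r1.trans r2).trans r3).trans r4).trans r5
  · exact ((((r1.trans r2).trans r3).trans r4).trans r5).trans r6
  · exact (((((r1.trans r2).trans r3).trans r4).trans r5).trans r6).trans r7

/-- first exit from the box -/
theorem firstBox {G : Set Edg} {n : ℕ} {u w : Vtx} (hu : inR 0 n 0 n u) (h : Reach G u w) :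
    (inR 0 n 0 n w ∧ Reach (G ∩ ↑(RE 0 n 0 n)) u w) ∨
    ∃ y : Vtx, (y.1 = 0 ∨ y.1 = n ∨ y.2 = 0 ∨ y.2 = n) ∧ Reach (G ∩ ↑(RE 0 n 0 n)) u y := by
  induction h with
  | refl => exact Or.inl ⟨hu, Reach.refl _ _⟩
  | @tail w w' _ hs ih =>
    rcases ih with ⟨h1, h2⟩ | ih
    · by_cases hw' : inR 0 n 0 n w'
      · left
        refine ⟨hw', h2.trans (Adj.reach ?_)⟩
        obtain ⟨e, he, hc⟩ := hs
        refine ⟨e, ⟨he, Finset.mem_coe.2 ?_⟩, hc⟩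
        rcases hc with ⟨h3, h4⟩ | ⟨h3, h4⟩
        · exact H731C.RE_of_ends (by rw [h3]; exact h1) (by rw [h4]; exact hw')
        · exact H731C.RE_of_ends (by rw [h3]; exact hw') (by rw [h4]; exact h1)
      · right
        refine ⟨w, ?_, h2⟩
        have h3 := adj_near hs
        unfold inR at h1 hw'
        omega
    · exact Or.inr ih

theorem src_ne_tgt (e : Edg) : src e ≠ tgt e := by
  obtain ⟨x, y, b⟩ := e
  cases b
  · simp
  · simp

/-- from paths to the graph of the definition -/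
theorem reach_avoid {C : Set (ℤ × ℤ)} {p q : ℤ × ℤ}
    (h : Reach {e | src e ∉ C ∧ tgt e ∉ C} p q) : (avoidGraph C).Reachable p q := by
  rw [SimpleGraph.reachable_iff_reflTransGen]
  refine Relation.ReflTransGen.mono ?_ _ _ h
  rintro a b ⟨e, ⟨h1, h2⟩, h3⟩
  unfold avoidGraph
  rw [SimpleGraph.fromRel_adj]
  rcases h3 with ⟨h4, h5⟩ | ⟨h4, h5⟩
  · refine ⟨?_, Or.inl ⟨⟨e, ?_, ?_⟩, ?_, ?_⟩⟩
    · rw [← h4, ← h5]; exact src_ne_tgt e
    · rw [Plain.fst_eq]; exact h4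
    · rw [Plain.snd_eq]; exact h5
    · rw [← h4]; exact h1
    · rw [← h5]; exact h2
  · refine ⟨?_, Or.inr ⟨⟨e, ?_, ?_⟩, ?_, ?_⟩⟩
    · rw [← h4, ← h5]; exact (src_ne_tgt e).symm
    · rw [Plain.fst_eq]; exact h4
    · rw [Plain.snd_eq]; exact h5
    · rw [← h4]; exact h1
    · rw [← h5]; exact h2

end TDET

theorem t_DET : S_DET := by
  intro n c F hn hc hA hcl
  obtain ⟨u, hu, ⟨z0, hz0, hz0W⟩, x, hx, y, hy, hxy⟩ := hA
  set W : Set Vtx := Cl c 1 n (↑F : Set Edg) u with hW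
  have hc' : (0 : ℤ) < c.1 ∧ c.1 < n ∧ (0 : ℤ) < c.2 ∧ c.2 < n ∧ (1 : ℤ) < c.1 ∧ c.1 + 1 < n ∧
      (1 : ℤ) < c.2 ∧ c.2 + 1 < n := by
    unfold Ctr at hc
    rw [Finset.mem_filter] at hc
    obtain ⟨-, h1, h2⟩ := hc
    have a1 := abs_le.1 (show |2 * c.1 - n| ≤ |2 * c.1 - n| from le_rfl)
    have a2 := abs_le.1 (show |2 * c.2 - n| ≤ |2 * c.2 - n| from le_rfl)
    omega
  -- (a)
  have hsub : (↑(F ∩ RE 0 n 0 n) : Set Edg) ⊆ (↑F : Set Edg) ∩ AE c 1 n := by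
    intro e he
    rw [Finset.coe_inter] at he
    obtain ⟨h1, h2⟩ := he
    refine ⟨h1, ?_⟩
    show e ∈ (↑(blk c n \ blk c 1) : Set Edg)
    rw [Finset.coe_sdiff]
    refine ⟨?_, fun h3 => hcl e (Finset.mem_coe.1 h3) (Finset.mem_coe.1 h1)⟩
    have h3 := H731C.RE_ends (Finset.mem_coe.1 h2)
    refine Finset.mem_coe.2 (H731C.RE_of_ends ?_ ?_)
    · have := h3.1
      unfold inR at this ⊢
      omega
    · have := h3.2
      unfold inR at this ⊢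
      omega
  have hWdef : ∀ a : Vtx, a ∈ W ↔ Reach ((↑F : Set Edg) ∩ AE c 1 n) u a := fun a => Iff.rfl
  have hWst : ∀ a b : Vtx, a ∈ W → Reach (↑(F ∩ RE 0 n 0 n) : Set Edg) a b → b ∈ W := by
    intro a b ha hab
    exact (hWdef b).2 (((hWdef a).1 ha).trans (hab.mono hsub))
  -- (b)
  have huW : u ∈ W := (hWdef u).2 (Reach.refl _ _)
  have hxW : x ∉ W := by
    rcases Relation.ReflTransGen.cases_head hxy with h | ⟨t, ht, -⟩
    · exfalso
      rw [h] at hx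
      rw [mem_bdB_iff] at hx hy
      unfold BX inR at hx hy
      omega
    · obtain ⟨e, ⟨-, h1, h2⟩, h3⟩ := ht
      rcases h3 with ⟨h4, h5⟩ | ⟨h4, h5⟩
      · rw [← h4]; exact h1
      · rw [← h5]; exact h2
  have hring : Reach (TDET.Rg c) u x := (TDET.ring_reach c u hu).symm.trans (TDET.ring_reach c x hx)
  rcases TDET.lastW huW hring with h | ⟨w, p, hw, hp, hwp, hpx⟩
  · exact absurd h hxW
  obtain ⟨e, ⟨he1, he2⟩, he3⟩ := hwp
  have hwb : w ∈ bdB c 1 := by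
    rcases he3 with ⟨h1, h2⟩ | ⟨h1, h2⟩
    · rw [← h1]; exact he1
    · rw [← h2]; exact he2
  refine ⟨w, hwb, ⟨?_, e, p, y, ?_, ?_, ?_, ?_⟩, ?_⟩
  · rw [Plain.mem_cluster]
    exact Reach.refl _ _
  · rw [Plain.fst_eq, Plain.snd_eq]
    rcases he3 with ⟨h1, h2⟩ | ⟨h1, h2⟩
    · exact Or.inl ⟨h1, h2⟩
    · exact Or.inr ⟨h1, h2⟩
  · intro h
    rw [Plain.mem_cluster] at h
    exact hp (hWst _ _ hw h)
  · intro h
    unfold Plain.box at h
    rw [Finset.mem_product, Finset.mem_Icc, Finset.mem_Icc] at h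
    rw [mem_bdB_iff] at hy
    unfold BX inR at hy
    omega
  · have hcW : ∀ a : Vtx, a ∉ W → a ∉ Plain.cluster (F ∩ RE 0 n 0 n) w := by
      intro a ha h
      rw [Plain.mem_cluster] at h
      exact ha (hWst _ _ hw h)
    apply TDET.reach_avoid
    have g1 : Reach {e | src e ∉ Plain.cluster (F ∩ RE 0 n 0 n) w ∧
        tgt e ∉ Plain.cluster (F ∩ RE 0 n 0 n) w} p x := by
      refine Relation.ReflTransGen.mono ?_ _ _ hpx
      rintro a b ⟨⟨e', -, h3⟩, ha, hb⟩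
      rcases h3 with ⟨h4, h5⟩ | ⟨h4, h5⟩
      · exact ⟨e', ⟨by rw [h4]; exact hcW _ ha, by rw [h5]; exact hcW _ hb⟩, Or.inl ⟨h4, h5⟩⟩
      · exact ⟨e', ⟨by rw [h4]; exact hcW _ hb, by rw [h5]; exact hcW _ ha⟩, Or.inr ⟨h4, h5⟩⟩
    refine g1.trans (hxy.mono ?_)
    rintro e' ⟨-, h1, h2⟩
    exact ⟨hcW _ h1, hcW _ h2⟩
  · have hwz : Reach ((↑F : Set Edg) ∩ AE c 1 n) w z0 :=
      ((hWdef w).1 hw).symm.trans ((hWdef z0).1 hz0W)
    have hwin : inR 0 n 0 n w := by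
      rw [mem_bdB_iff] at hwb
      unfold BX inR at hwb
      unfold inR
      omega
    have hmono : (((↑F : Set Edg) ∩ AE c 1 n) ∩ ↑(RE 0 n 0 n) : Set Edg) ⊆
        (↑(F ∩ RE 0 n 0 n) : Set Edg) := by
      rintro e' ⟨⟨h1, -⟩, h2⟩
      rw [Finset.coe_inter]
      exact ⟨h1, h2⟩
    rcases TDET.firstBox hwin hwz with ⟨h1, -⟩ | ⟨t, ht, h2⟩
    · exfalso
      rw [mem_bdB_iff] at hz0
      unfold BX inR at hz0
      unfold inR at h1
      omega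
    · refine ⟨t, ?_, ht⟩
      rw [Plain.mem_cluster]
      exact h2.mono hmono

end Pool.Agent.W801.AV
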